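import Pool.Agent.Lib.DK.Ded

/-!
# Theorem DK, part R (the numbers `𝒟`: algebraicity and good reduction): statements of the modules with proofs

Every statement `S_..` is proved in the file `DK/R/<name>.lean` as `theorem s<name> (hypotheses) : S_<name>`:
hypotheses exactly the statements named after (from ..), in that order. Read `DK/Defs.lean`, `DK/Iface.lean`,
`DK/Base.lean` first; facts on `VP`, `MP`, `UP`: `DI/Val.lean` (namespace `Pool.Agent.DI`: `VP.add`, `VP.mul`,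
`VP.not_iff`, `VP.or_inv`, `MP.mul_left`, `MP.mul_cases`, `MP.of_pow`, `UP.iff`, `UP.mul`, `UP.inv`, `UP.prod`,
`UP.of_pow`, `UP.congr`, `UP.ne_zero`, `VP.smul`, ...; `Npr Q` gives the instance `Q.IsPrime`).

THE CYCLE. `θ i = ThC (ppb ^ i b)`, `ppb ^ h = (α)`: `𝒟(ppb ^ i b) = θ i ^ 2`,
`θ (i + 1) ^ 2 (1 + 4 θ i) ^ 2 = θ i`, `θ (i + h) = θ i`, `∏ θ i * α ^ 2 = 1`.
-/

set_option autoImplicit false

open scoped Pointwise nonZeroDivisors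

noncomputable section

namespace Pool.Agent.DK

open Pool.Agent.MuZ Pool.Agent.FW NumberField IsDedekindDomain
open Pool.Agent.DI (io ofC io_inj exists_io io_ofC ofC_io VP MP UP TP ex sqr sqr_sq kap)

/-! ## Valuations -/

/-- MODULE `AbQ` (130 lines; from `S_O4`). THE PRIME IDEAL OF `O` BELOW `Q`. PROOF. `q = {v | MP Q (toO v)}` is a prime ideal
(`toO_VP`, `MP.add`, `MP.mul_left`, `MP.mul_cases`, `MP.one_not`), `≠ ⊥`: `Q` contains a prime number `p` (`Q ≠ ⊥`, an integral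
element `x ≠ 0` of `Q` divides a nonzero integer; see `DI/Val.lean`, `FW`), `p ∈ q`. `Abv Q a ↔ a ≤ q` is the
definition; so `Abv Q (a * b)` iff `a ≤ q` or `b ≤ q` (`Ideal.IsPrime.mul_le`). (2) `toO` is an injective ring
homomorphism `OO k → ZZ` (`toO_integral`), integral (`ZZ` is integral over `ℤ`), so there is a prime of `ZZ` over `q`
(`Ideal.exists_ideal_over_prime_of_isIntegral` or `Ideal.exists_ideal_liesOver..`); it is not `⊥` as `q ≠ ⊥`. (3) `pp k` is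
generated by `2`, `wI k` (`toO_wI`), `ppb k` by `2`, `1 - wI k`. (4) `2 ∈ pp * ppb` (`S_O4`), `1 = w + (1 - w)`. (5) `NI q = l` kills
`O/q`, so `(l : OO k) ∈ q`. -/
def S_AbQ : Prop :=
  ∀ (k : ℕ) [SqK k],
    (∀ Q : Ideal ZZ, Npr Q → ∃ q : Ideal (OO k), q.IsPrime ∧ q ≠ ⊥ ∧
      (∀ v : OO k, v ∈ q ↔ MP Q (toO v)) ∧ ∀ a : Ideal (OO k), Abv Q a ↔ a ≤ q) ∧
    (∀ q : Ideal (OO k), q.IsPrime → q ≠ ⊥ → ∃ Q : Ideal ZZ, Npr Q ∧ Abv Q q) ∧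
    (∀ Q : Ideal ZZ, Npr Q → ∀ a b : Ideal (OO k), Abv Q (a * b) ↔ Abv Q a ∨ Abv Q b) ∧
    (∀ Q : Ideal ZZ, Npr Q → ∀ v : OO k, Abv Q (sp v) ↔ MP Q (toO v)) ∧
    (∀ Q : Ideal ZZ, (AbP k Q ↔ Npr Q ∧ Abv Q (pp k)) ∧ (AbPb k Q ↔ Npr Q ∧ Abv Q (ppb k)) ∧
      ¬ (AbP k Q ∧ AbPb k Q) ∧ (Npr Q → MP Q 2 → AbP k Q ∨ AbPb k Q)) ∧
    ∀ (Q : Ideal ZZ) (q : Ideal (OO k)) (l : ℕ), Npr Q → Deg1 q l → Abv Q q →
      MP Q (l : Om) ∧ ∀ n : ℤ, ¬ (l : ℤ) ∣ n → UP Q (n : Om)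

/-- MODULE `RA` (40 lines). VALUATION RINGS OF `ℂ` WHICH CONTAIN THE ALGEBRAIC NUMBERS. PROOF. Let `R` be the
subring of the algebraic numbers of `ℂ` (`algebraicClosure ℚ ℂ` as a subring). `R` is integrally closed in `ℂ`
(an element integral over `R` is algebraic over `ℚ`: `isIntegral_trans`/`IsAlgebraic.trans`-type lemmas;
`Subring.isIntegrallyClosedIn_iff`), so `Subring.exists_le_valuationSubring_of_isIntegrallyClosedIn`. -/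
def S_RA : Prop :=
  ∀ x : ℂ, ¬ IsAlgebraic ℚ x → ∃ V : ValuationSubring ℂ, (∀ y : ℂ, IsAlgebraic ℚ y → y ∈ V) ∧ x ∉ V

/-- MODULE `RV` (50 lines). THE VALUATION RING OF `Q`. PROOF. `{x | VP Q x}` is a subring (`VP.zero`, `VP.one`,
`VP.add`, `VP.mul`, `VP.neg`), and `VP.or_vp_inv`. `V.valuation x < 1` iff `x = 0` or `x⁻¹ ∉ V`
(`ValuationSubring.valuation_lt_one_iff`-type lemmas, `inv_mem_nonunits_iff`, or `Valuation.map_inv` and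
`V.valuation_le_one_iff`), and `VP.not_iff` for `x⁻¹`. -/
def S_RV : Prop :=
  ∀ Q : Ideal ZZ, Npr Q → ∃ V : ValuationSubring Om, (∀ x : Om, V.valuation x ≤ 1 ↔ VP Q x) ∧
    (∀ x : Om, V.valuation x < 1 ↔ MP Q x) ∧ ∀ x : Om, V.valuation x = 1 ↔ UP Q x

/-- MODULE `RB` (80 lines). NO POLES ON THE CYCLE. PROOF. `v = V.valuation`, `v 4 = 1`. If `v (θ j) < 1` then
`v (1 + 4 θ j) = 1` (`Valuation.map_one_add_of_lt` or `map_add_eq_of_lt_left`), so `v (θ (j + 1)) ^ 2 = v (θ j) < 1` and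
`v (θ (j + 1)) < 1`. Suppose `v (θ i) > 1` and put `x = (θ i)⁻¹`, `v x < 1`, `v (4 + x) = 1`,
`1 + 4 θ i = θ i (4 + x)`; the relation gives `θ (i + 1) ^ 2 (4 + x) ^ 2 = x`, so `v (θ (i + 1)) < 1`. By induction
`v (θ (i + 1 + n)) < 1` for all `n`; `n = h - 1`: `v (θ i) < 1`, a contradiction. -/
def S_RB : Prop :=
  ∀ (F : Type) [Field F] (V : ValuationSubring F) (h : ℕ) (θ : ℕ → F), 0 < h →
    (∀ i, θ (i + h) = θ i) → (∀ i, θ (i + 1) ^ 2 * (1 + 4 * θ i) ^ 2 = θ i) → V.valuation 4 = 1 →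
    ∀ i, V.valuation (θ i) ≤ 1

/-- MODULE `RC` (100 lines; from `S_RB`). UNITS, RESIDUE CHARACTERISTIC NOT `2`. PROOF. `v (θ i) ≤ 1` by `S_RB`,
and the product over `i < h` of the `v (θ i)` is `1` (`v α = 1`), so `v (θ i) = 1` for `i < h`, hence for all `i`
(periodicity). `v (1 + 4 θ i) ^ 2 = v (θ i) / v (θ (i + 1)) ^ 2 = 1`. Put `u i = 1 - 4 θ i`. From
the relation `(1 - 16 θ (i + 1) ^ 2) (1 + 4 θ i) ^ 2 = (1 + 4 θ i) ^ 2 - 16 θ i = u i ^ 2`, and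
`1 - 16 θ (i + 1) ^ 2 = u (i + 1) (1 + 4 θ (i + 1))`. So `v (u (i + 1)) = v (u i) ^ 2`, hence
`v (u i) = v (u (i + h)) = v (u i) ^ (2 ^ h)`, and `v (u i) ≠ 0` (`u i ≠ 0`), so `v (u i) ^ (2 ^ h - 1) = 1`,
`v (u i) = 1` (linearly ordered group with zero: `pow_eq_one_iff`-type lemma, `2 ^ h - 1 ≠ 0`). -/
def S_RC : Prop :=
  ∀ (F : Type) [Field F] (V : ValuationSubring F) (h : ℕ) (α : F) (θ : ℕ → F), 0 < h →
    (∀ i, θ (i + h) = θ i) → (∀ i, θ (i + 1) ^ 2 * (1 + 4 * θ i) ^ 2 = θ i) →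
    (∀ i, θ i ≠ 0 ∧ 1 - 16 * θ i ^ 2 ≠ 0) → (∏ i ∈ Finset.range h, θ i) * α ^ 2 = 1 →
    V.valuation α = 1 → V.valuation 4 = 1 →
    ∀ i, V.valuation (θ i) = 1 ∧ V.valuation (1 + 4 * θ i) = 1 ∧ V.valuation (1 - 16 * θ i ^ 2) = 1

/-- MODULE `RD` (80 lines). UNITS, ABOVE `𝔭`. PROOF. `v = V.valuation`, `v 4 < 1`. If `v (θ i) < 1` for one
`i`, then as in `S_RB` (`v (1 + 4 θ i) = 1`) `v (θ (i + 1)) < 1`, so `v (θ j) < 1` for all `j ≥ i` and by periodicity for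
all `j`, and the product of the `θ i`, `i < h`, `h > 0`, has valuation `< 1`, but it is `α⁻²` of valuation `1`. So
`v (θ i) ≥ 1` for all `i`, and the product of the `v (θ i)` is `1`, so all are `1` (apply the argument of `S_RC` to the
inverses). -/
def S_RD : Prop :=
  ∀ (F : Type) [Field F] (V : ValuationSubring F) (h : ℕ) (α : F) (θ : ℕ → F), 0 < h →
    (∀ i, θ (i + h) = θ i) → (∀ i, θ (i + 1) ^ 2 * (1 + 4 * θ i) ^ 2 = θ i) →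
    (∏ i ∈ Finset.range h, θ i) * α ^ 2 = 1 → V.valuation α = 1 → V.valuation 2 < 1 →
    ∀ i, V.valuation (θ i) = 1

/-! ## The cycle -/

/-- MODULE `R0` (120 lines; from `S_O4`, `S_O5`, `S_B1`, `S_B5`, `S_B7`). THE CYCLE. PROOF. `S_O5` for `a = ppb k`:
`h`, `α`. `θ i = ThC (ppb k ^ i * b)`. Periodicity: `ppb ^ (i + h) * b = sp α * (ppb ^ i * b)` and `S_B7`. `S_B5` for
`c = ppb ^ i * b`: `1 + 4 θ i ≠ 0`, `DC (ppb * c) (1 + 4 θ i) ^ 2 = θ i`, and `DC (ppb * c) = θ (i + 1) ^ 2` (`S_B1`).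
`θ i ≠ 0`, `1 - 16 θ i ^ 2 ≠ 0`: `S_B1`. `s2 (ppb * c) = (1 + 4 θ i) ^ 2 * s2 c`, so
`(∏ (1 + 4 θ i)) ^ 2 s2 b = s2 (sp α * b) = toC α ^ 2 s2 b` (induction), `s2 b ≠ 0`. Let `Π = ∏ θ i`, `i < h`;
`∏ θ (i + 1) = Π` by periodicity (`Finset.prod_range_succ_comm`, `Finset.prod_range_succ'`), so the product of the
relations is `Π ^ 2 * toC α ^ 2 = Π`, `Π ≠ 0`. -/
def S_R0 : Prop :=
  ∀ (k : ℕ) [SqK k], ∃ (h : ℕ) (α : OO k), 0 < h ∧ α ≠ 0 ∧ ppb k ^ h = sp α ∧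
    ∀ b : Ideal (OO k), b ≠ ⊥ →
      (∀ i : ℕ, ThC (ppb k ^ (i + h) * b) = ThC (ppb k ^ i * b)) ∧
      (∀ i : ℕ, ThC (ppb k ^ (i + 1) * b) ^ 2 * (1 + 4 * ThC (ppb k ^ i * b)) ^ 2 =
        ThC (ppb k ^ i * b)) ∧
      (∀ i : ℕ, ThC (ppb k ^ i * b) ≠ 0 ∧ 1 - 16 * ThC (ppb k ^ i * b) ^ 2 ≠ 0 ∧
        DC (ppb k ^ i * b) = ThC (ppb k ^ i * b) ^ 2) ∧
      (∏ i ∈ Finset.range h, ThC (ppb k ^ i * b)) * toC α ^ 2 = 1

/-- MODULE `R1` (40 lines; from `S_RA`, `S_RB`, `S_R0`): `S_R1`. PROOF. `io (ofC y) = y` for algebraic `y` (`io_ofC`), so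
it is enough that `ThC b` is algebraic (`DC b = ThC b ^ 2`). If not, `S_RA` gives `V` with `ThC b ∉ V` and all algebraic
numbers in `V`; `v 4 = 1` as `4`, `4⁻¹ ∈ V`; `S_RB` with `θ i = ThC (ppb ^ i * b)`, `i = 0`, is a contradiction. -/
abbrev M_R1 : Prop := S_R1

/-- MODULE `R0O` (60 lines; from `S_R0`, `S_R1`). THE CYCLE IN `Om`. PROOF. Apply `io` (injective: `io_inj`;
`S_R1`, `io_toO`) to `S_R0`. -/
def S_R0O : Prop :=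
  ∀ (k : ℕ) [SqK k], ∃ (h : ℕ) (α : OO k), 0 < h ∧ α ≠ 0 ∧ ppb k ^ h = sp α ∧
    ∀ b : Ideal (OO k), b ≠ ⊥ →
      (∀ i : ℕ, tO (ppb k ^ (i + h) * b) = tO (ppb k ^ i * b)) ∧
      (∀ i : ℕ, tO (ppb k ^ (i + 1) * b) ^ 2 * (1 + 4 * tO (ppb k ^ i * b)) ^ 2 =
        tO (ppb k ^ i * b)) ∧
      (∀ i : ℕ, tO (ppb k ^ i * b) ≠ 0 ∧ 1 - 16 * tO (ppb k ^ i * b) ^ 2 ≠ 0 ∧
        dO (ppb k ^ i * b) = tO (ppb k ^ i * b) ^ 2) ∧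
      (∏ i ∈ Finset.range h, tO (ppb k ^ i * b)) * toO α ^ 2 = 1

/-- MODULE `R2a` (120 lines; from `S_O2`, `S_O4`, `S_RV`, `S_RC`, `S_RD`, `S_R0O`, `S_R1`, `S_B6`). PROOF. `V` from `S_RV`.
(1) `¬ MP Q 2`: `toO α * toO (cjO α) = Nm α` and `Nm α = NI (ppb ^ h) = 2 ^ h` (`S_O2`, `S_O4`), a unit, so
`toO α` is a unit (`toO_VP`), `v 4 = 1`: `S_RC` with `θ i = tO (ppb ^ i * b)`, at `i = 0`. (2) `AbP k Q`: `v 2 < 1`;
`toO α` is a unit: if `MP Q (toO α)`, `(1 - w) ^ h ∈ ppb ^ h = sp α`, so `(1 - wO) ^ h ∈ M_Q`, `1 - wO ∈ M_Q`, and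
`wO ∈ M_Q`: `1 ∈ M_Q`. `S_RD`. The congruences: `S_B6` in `Om` (`S_R1`): `dO b * (1 + 4 θ') ^ 2 = θ'`,
`θ' = tO (pp k * b)` (in `V`, as shown for `pp k * b`), so `θ' - dO b = dO b (8 θ' + 16 θ' ^ 2) ∈ M_Q`, and
`dO (pp * b) = θ' ^ 2`. -/
def S_R2a : Prop :=
  ∀ (k : ℕ) [SqK k] (b : Ideal (OO k)), b ≠ ⊥ → ∀ Q : Ideal ZZ, Npr Q →
    (¬ MP Q 2 → UP Q (dO b) ∧ UP Q (1 - 16 * dO b) ∧ UP Q (tO b) ∧ UP Q (1 + 4 * tO b)) ∧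
    (AbP k Q → UP Q (dO b) ∧ UP Q (tO b) ∧ MP Q (tO (pp k * b) - dO b) ∧
      MP Q (dO (pp k * b) - dO b ^ 2))

/-- MODULE `R2` (50 lines; from `S_O3`, `S_R2a`, `S_R4`): `S_R2`. PROOF. The first two parts are `S_R2a`. Let `AbPb k Q`, and
`c` from `S_R4`: `AbP k (c • Q)`, so `UP (c • Q) (dO (cjI b))` (`cjI b ≠ ⊥`: `S_O3`). By `S_R4`
`c ((1 - 16 * dO b)/16)`: `c (dO b) = (1 - 16 dO (cjI b))/16`, so
`c ((1 - 16 dO b)/16) = (1 - (1 - 16 dO (cjI b)))/16 = dO (cjI b)`. `UP.smul`. -/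
abbrev M_R2 : Prop := S_R2

/-- MODULE `R3` (120 lines; from `S_O4`, `S_O5`, `S_B6`, `S_B7`, `S_R1`, `S_R2a`): `S_R3`. PROOF. `pp ^ h = sp β`, `h > 0`
(`S_O5`); `b j = pp ^ j * b`, `b' j = pp ^ j * b'`, `δ j = dO (b j) - dO (b' j)`. Let `θ = tO (b (j + 1))`,
`θ' = tO (b' (j + 1))`, units (`S_R2a`). `S_B6` in `Om`: `dO (b j) (1 + 4 θ) ^ 2 = θ`, the same for `b'`, so
`δ j (1 + 4 θ) ^ 2 (1 + 4 θ') ^ 2 = θ (1 + 4 θ') ^ 2 - θ' (1 + 4 θ) ^ 2 = (θ - θ') (1 - 16 θ θ')`; `1 + 4 θ`,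
`1 + 4 θ'`, `1 - 16 θ θ'` are units (`4 ∈ M_P`, `UP.congr`). `δ (j + 1) = θ ^ 2 - θ' ^ 2 = (θ - θ') (θ + θ')`. If `δ j ∈ M_P`:
`θ - θ' ∈ M_P`, `θ + θ' = (θ - θ') + 2 θ' ∈ M_P`. So `δ (j + 1) = δ j * m j` with `m j ∈ M_P`, and by induction
`δ j = δ 0 * μ j`, with `μ j ∈ M_P` for `j ≥ 1`. `δ h = δ 0` (`dO (sp β * b) = dO b`: `S_B7`), so `δ 0 (1 - μ h) = 0`,
`1 - μ h ≠ 0` (`MP.one_not`). -/
abbrev M_R3 : Prop := S_R3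

/-! ## Algebraicity of `X` and complex conjugation -/

/-- MODULE `R4a` (150 lines; from `S_L2`, `S_L3`, `S_L6`, `S_B1`, `S_B3`, `S_RA`, `S_R1`). `X` IS ALGEBRAIC AT TORSION
POINTS. PROOF. `z ∈ Lam b`: `S_B1`. Let `z ∉ Lam b`, `N z ∈ Lam b`, `x = XC b z`, and suppose `x` is not algebraic: `V`
from `S_RA`, `v = V.valuation`, `v x > 1`, `v y ≤ 1` for all algebraic `y`, hence `v y = 1` for all algebraic `y ≠ 0`.
CLAIM: for all `j`: `2 ^ j z ∉ Lam b` and `v (4 ^ j X_j / x - 1) < 1`, `X_j = XC b (2 ^ j z)` (so `v X_j = v x > 1`).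
`j = 0`: clear. Let `y = 2 ^ j z`. `2 y ∉ Lam b`: otherwise, as `y ∉ Lam b`, `S_L6` (3) and `S_B1` give
`X_j ∈ {-1/4, 0, -4 DC b}`, which is algebraic (`S_R1`), a contradiction to `v X_j > 1`. `S_B3`:
`X_(j+1) X_j (X_j + 4 𝒟) (4 X_j + 1) = (X_j ^ 2 - 𝒟) ^ 2`; divide by `X_j ^ 4`:
`(X_(j+1)/X_j) (1 + 4 𝒟/X_j) (4 + 1/X_j) = (1 - 𝒟/X_j ^ 2) ^ 2`, so `v (4 X_(j+1)/X_j - 1) < 1`; multiply. PIGEONHOLE: the points
`2 ^ j z` are in `Lam (sp N * b)` (`lam_sp`), which has finitely many classes modulo `Lam b` (`S_L3`), so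
`2 ^ i z - 2 ^ (i + m) z ∈ Lam b` with `m ≥ 1`, and `X_(i+m) = X_i`; from the claim for `i`, `i + m`:
`v (4 ^ m - 1) < 1` (`4 ^ (i+m) X_i / x = 4 ^ m (4 ^ i X_i/x)`), but `4 ^ m - 1` is a nonzero rational number. -/
def S_R4a : Prop :=
  ∀ (k : ℕ) [SqK k] (b : Ideal (OO k)), b ≠ ⊥ → ∀ z : ℂ, Tor k z → IsAlgebraic ℚ (XC b z)

/-- MODULE `R4` (80 lines; from `S_L2`, `S_B7`, `S_R1`, `S_R4a`): `S_R4`. PROOF. First claim: `io_ofC`. `c`: the theorem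
`Pool.Agent.DI.tA1 : S_A1` (`DI/B/A12.lean`; `∃ c, ∀ x, io (c x) = conj (io x)`). The formulas: apply `io` and `S_B7`
(`conj z` is a torsion point: `conj_toC`). `c (wO k) = 1 - wO k` (`io_wO`, `conj_wC`), so `MP P (wO)` gives
`MP (c • P) (1 - wO)` (`DI.MP.smul`), and conversely `c (1 - wO) = wO`; `Npr (c • P)`: `c • P` is a prime ideal `≠ ⊥`
(see `DI/E/Inr9.lean`, `DI/E/Cj9.lean` for examples). -/
abbrev M_R4 : Prop := S_R4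

/-! ## The framing in `Om` -/

/-- MODULE `R5a` (100 lines; from `S_L3`, `S_L4`, `S_L6`, `S_B1`, `S_B9`, `S_R4a`). QUOTIENTS OF THE NUMBERS `s2` ARE
ALGEBRAIC. PROOF. First `b' = a b`: `S_B9` with `z = ptS (a b)`, `z' = ptT (a b)` (not in `Lam (a b)`, torsion points)
and a system `R` (`S_L3`): `XC (a b) z - XC (a b) z' = 1/4` (`S_B1`), so
`s2 (a b) / 4 = s2 b ∑ (XC b (z + u) - XC b (z' + u))`, and the sum is algebraic (`S_R4a`; `z + u` are torsion points).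
General: `s2 b' / s2 b = (s2 (b * b')/s2 b) / (s2 (b * b')/s2 b')`, `s2 ≠ 0`. -/
def S_R5a : Prop :=
  ∀ (k : ℕ) [SqK k] (b b' : Ideal (OO k)), b ≠ ⊥ → b' ≠ ⊥ → IsAlgebraic ℚ (s2 b' / s2 b)

/-- MODULE `R5b` (130 lines; from `S_AbQ`, `S_B1`, `S_B2`, `S_B12`, `S_R4`, `S_D1`, `S_D2`, `S_L6`). THE NUMBER `N(b) = 6 X² + (1 + 16 𝒟) X + 2 𝒟` at `1/f` IS NOT ZERO, and
`fr² = s2 N²/W2`. PROOF. `1/f` is a torsion point, `2 (1/f) ∉ Lam b` (and so `1/f ∉ Lam b`): otherwise `2 ∈ f O`-type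
contradiction: `v * 2 / f ∈ O` for all `v ∈ b`, so `2 b ≤ sp f`, but `b ⊔ sp f = ⊤` and `f` is odd `≥ 3` (`1 = v + f u`,
`v ∈ b`: `f ∣ 2 v`, so `f ∣ 2`). Let `P` be any prime of `ZZ` above `pp k` (`S_AbQ`). `1/f` and `1/f + ptS b` are
not `P`-primary (`S_D2` (6), (7)): `¬ Qp P b (1/f)`: with `α = f`, `β = 1`: `f` is a unit at `P`; `Qp` would give
`1/f ∈ Lam b`. `¬ IK P b (1/f + ptS b)`: otherwise (`S_D1`: `O`-module, `2 ptS b ∈ Lam b`) `IK P b (2/f)`, so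
`Qp P b (2/f)`, `2/f ∈ Lam b`. So `X = xO b (1/f)` is a unit at `P` and the number in question is
`X + 2 (..)`, a unit. The formula: `S_B12` and `S_B2` (`wdC ^ 2 = s2 ^ 3 W2`), all `≠ 0` (`S_B1`). -/
def S_R5b : Prop :=
  ∀ (k : ℕ) [SqK k] (f : ℕ) (b : Ideal (OO k)), Odd f → 3 ≤ f → b ≠ ⊥ → PrI b f →
    2 * (1 / f : ℂ) ∉ Lam b ∧
    6 * xO b (1 / f) ^ 2 + (1 + 16 * dO b) * xO b (1 / f) + 2 * dO b ≠ 0 ∧
    W2 b (1 / f) ≠ 0 ∧ fr f b ≠ 0 ∧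
    fr f b ^ 2 * io (W2 b (1 / f)) = s2 b *
      io (6 * xO b (1 / f) ^ 2 + (1 + 16 * dO b) * xO b (1 / f) + 2 * dO b) ^ 2

/-- MODULE `R5` (100 lines; from `S_B1`, `S_B2`, `S_B11`, `S_B14`, `S_R1`, `S_R4`, `S_R5a`, `S_R5b`): `S_R5`. PROOF. A complex number is
algebraic if its square is (`IsAlgebraic.of_pow`), and `io (ofC y) = y` for algebraic `y`. By `S_R5b`
`(fr f b'/fr f b) ^ 2` is `s2 b'/s2 b` (`S_R5a`) times an algebraic number. `(wdC b z/fr ^ 3) ^ 2 = s2 ^ 3 W2(z)/fr ^ 6`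
(`S_B2` for `z ∉ Lam b`; `wdC b z = 0` for `z ∈ Lam b`: `S_B1`) `= W2(z) W2(1/f) ^ 3/N ^ 6`. `g`: `S_B11`;
`(wdC b z/(fr s2)) ^ 2 = s2 W2(z)/fr ^ 2 = W2(z) W2(1/f)/N ^ 2`, and the `XC b z - XC b u` are algebraic (`u` in the half
system is a torsion point). -/
abbrev M_R5 : Prop := S_R5

end Pool.Agent.DK
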