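import Pool.Agent.Lib.DK.R.Spec

/-!
# Theorem DK, module AbQ: the prime ideal of `O` below a prime `Q` of `ZZ`
-/

set_option autoImplicit false

noncomputable section

namespace Pool.Agent.DK

open Pool.Agent.MuZ Pool.Agent.FW
open Pool.Agent.DI (VP MP UP)

/-- `toO` as a ring homomorphism to `ZZ`. -/
private def AbQ_j (k : ℕ) [SqK k] : OO k →+* ZZ where
  toFun v := ⟨toO v, toO_integral v⟩
  map_one' := Subtype.ext toO_one
  map_mul' v u := Subtype.ext (toO_mul v u)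
  map_zero' := Subtype.ext toO_zero
  map_add' v u := Subtype.ext (toO_add v u)

private lemma AbQ_iff (k : ℕ) [SqK k] (Q : Ideal ZZ) [Q.IsPrime] (v : OO k) :
    MP Q (toO v) ↔ AbQ_j k v ∈ Q := DI.MP.coe_iff (P := Q) (AbQ_j k v)

private lemma AbQ_abv (k : ℕ) [SqK k] (Q : Ideal ZZ) [Q.IsPrime] (a : Ideal (OO k)) :
    Abv Q a ↔ a ≤ Q.comap (AbQ_j k) := by
  constructor
  · intro h v hv
    exact (AbQ_iff k Q v).1 (h v hv)
  · intro h v hv
    exact (AbQ_iff k Q v).2 (h hv)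

private lemma AbQ_ne (k : ℕ) [SqK k] (Q : Ideal ZZ) (h : Q ≠ ⊥) : Q.comap (AbQ_j k) ≠ ⊥ := by
  obtain ⟨x, hx, hx0⟩ := Submodule.exists_mem_ne_zero_of_ne_bot h
  have h1 : IsIntegral ℤ x := Algebra.IsIntegral.isIntegral x
  have h2 := Ideal.comap_ne_bot_of_integral_mem hx0 hx h1
  obtain ⟨n, hn, hn0⟩ := Submodule.exists_mem_ne_zero_of_ne_bot h2
  intro h3
  have h4 : ((n : ℤ) : OO k) ∈ Q.comap (AbQ_j k) := by
    rw [Ideal.mem_comap, map_intCast]
    simpa using hn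
  rw [h3, Ideal.mem_bot] at h4
  apply hn0
  have h5 := congrArg QuadraticAlgebra.re h4
  rw [re_int] at h5
  exact h5

theorem sAbQ (h4 : S_O4) : S_AbQ := by
  intro k _
  have H1 : ∀ Q : Ideal ZZ, Npr Q → ∀ a b : Ideal (OO k), Abv Q (a * b) ↔ Abv Q a ∨ Abv Q b := by
    intro Q hQ a b
    obtain ⟨hQ1, -⟩ := hQ
    rw [AbQ_abv, AbQ_abv, AbQ_abv]
    have : (Q.comap (AbQ_j k)).IsPrime := Ideal.comap_isPrime _ _
    exact Ideal.IsPrime.mul_le this
  have H2 : ∀ Q : Ideal ZZ, Npr Q → ∀ v : OO k, Abv Q (sp v) ↔ MP Q (toO v) := by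
    intro Q hQ v
    obtain ⟨hQ1, -⟩ := hQ
    rw [AbQ_abv, AbQ_iff, Ideal.span_singleton_le_iff_mem, Ideal.mem_comap]
  have two : toO (2 : OO k) = 2 := by
    have := toO_nat (k := k) 2
    exact_mod_cast this
  have HP : ∀ Q : Ideal ZZ, Npr Q → ∀ u : OO k, Abv Q (Ideal.span {2, u}) ↔
      MP Q 2 ∧ MP Q (toO u) := by
    intro Q hQ u
    obtain ⟨hQ1, -⟩ := hQ
    rw [AbQ_abv, Ideal.span_le, Set.insert_subset_iff, Set.singleton_subset_iff]
    rw [← two, AbQ_iff, AbQ_iff]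
    rfl
  have HA : ∀ Q : Ideal ZZ, AbP k Q ↔ Npr Q ∧ Abv Q (pp k) := by
    intro Q
    unfold AbP
    refine and_congr_right fun hQ => ?_
    rw [show pp k = Ideal.span {2, wI k} from rfl, HP Q hQ, toO_wI]
  have HB : ∀ Q : Ideal ZZ, AbPb k Q ↔ Npr Q ∧ Abv Q (ppb k) := by
    intro Q
    unfold AbPb
    refine and_congr_right fun hQ => ?_
    rw [show ppb k = Ideal.span {2, 1 - wI k} from rfl, HP Q hQ, toO_sub, toO_one, toO_wI]
  refine ⟨?_, ?_, H1, H2, ?_, ?_⟩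
  · intro Q hQ
    obtain ⟨hQ1, hQ2⟩ := hQ
    exact ⟨Q.comap (AbQ_j k), Ideal.comap_isPrime _ _, AbQ_ne k Q hQ2,
      fun v => (AbQ_iff k Q v).symm, AbQ_abv k Q⟩
  · intro q hq hq0
    let _ : Algebra (OO k) ZZ := (AbQ_j k).toAlgebra
    have hal : ∀ v : OO k, algebraMap (OO k) ZZ v = AbQ_j k v := fun _ => rfl
    have hinj : Function.Injective (AbQ_j k) := fun u v h => toO_inj (congrArg Subtype.val h)
    have : Algebra.IsIntegral (OO k) ZZ := ⟨fun x => by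
      have h1 : IsIntegral ℤ x := Algebra.IsIntegral.isIntegral x
      exact h1.tower_top⟩
    obtain ⟨Q, hQ, hQq⟩ := Ideal.exists_ideal_over_prime_of_isIntegral_of_isDomain (S := ZZ) q (by
      intro x hx
      have h1 : AbQ_j k x = 0 := hx
      have h2 : x = 0 := hinj (by rw [h1, map_zero])
      rw [h2]
      exact q.zero_mem)
    refine ⟨Q, ⟨hQ, ?_⟩, ?_⟩
    · rintro rfl
      apply hq0
      rw [← hQq, eq_bot_iff]
      intro x hx
      have h1 : AbQ_j k x = 0 := hx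
      have h2 : x = 0 := hinj (by rw [h1, map_zero])
      exact h2
    · rw [AbQ_abv]
      exact hQq.ge
  · intro Q
    refine ⟨HA Q, HB Q, ?_, ?_⟩
    · rintro ⟨⟨⟨h1, -⟩, -, h2⟩, -, -, h3⟩
      have h5 := DI.MP.add h2 h3
      rw [add_sub_cancel] at h5
      exact DI.MP.one_not h5
    · intro hQ h2
      obtain ⟨h5, -⟩ := h4 k
      have h6 : Abv Q (pp k * ppb k) := by
        rw [h5, H2 Q hQ, two]
        exact h2
      rcases (H1 Q hQ _ _).1 h6 with h7 | h7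
      · exact Or.inl ((HA Q).2 ⟨hQ, h7⟩)
      · exact Or.inr ((HB Q).2 ⟨hQ, h7⟩)
  · intro Q q l hQ hq ha
    obtain ⟨hQ1, hQ2⟩ := hQ
    obtain ⟨-, -, hl, hN⟩ := hq
    have h1 : ((l : ℕ) : OO k) ∈ q := by
      have h2 : Nat.card (OO k ⧸ q) • (1 : OO k ⧸ q) = 0 := card_nsmul_eq_zero'
      rw [show Nat.card (OO k ⧸ q) = l from hN, nsmul_eq_mul, mul_one] at h2
      rw [← Ideal.Quotient.eq_zero_iff_mem, map_natCast]
      exact h2
    have h3 : MP Q (l : Om) := by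
      have := ha _ h1
      rwa [toO_nat] at this
    refine ⟨h3, fun n hn => ⟨DI.VP.int n, fun h5 => ?_⟩⟩
    have h6 : IsCoprime (l : ℤ) n := by
      rw [(Nat.prime_iff_prime_int.1 hl).coprime_iff_not_dvd]
      exact hn
    obtain ⟨a, b, hab⟩ := h6
    have h7 : MP Q (((a : ℤ) : Om) * (l : Om) + ((b : ℤ) : Om) * (n : Om)) :=
      DI.MP.add (DI.MP.mul_left (DI.VP.int a) h3) (DI.MP.mul_left (DI.VP.int b) h5)
    have h8 : ((a : ℤ) : Om) * (l : Om) + ((b : ℤ) : Om) * (n : Om) = 1 := by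
      have := congrArg (fun t : ℤ => (t : Om)) hab
      push_cast at this
      exact this
    rw [h8] at h7
    exact DI.MP.one_not h7

end Pool.Agent.DK
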