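import Pool.Agent.Lib.DK.R.Spec

/-!
# Theorem DK, module R0: the cycle of the numbers `θ`
-/

set_option autoImplicit false

noncomputable section

namespace Pool.Agent.DK

open Pool.Agent.MuZ Pool.Agent.FW NumberField IsDedekindDomain

/-- Products over a period. -/
private theorem R0_prod (h : ℕ) (θ : ℕ → ℂ) (hper : θ h = θ 0) (h0 : θ 0 ≠ 0) :
    ∏ i ∈ Finset.range h, θ (i + 1) = ∏ i ∈ Finset.range h, θ i := by
  have h1 := Finset.prod_range_succ θ h
  have h2 := Finset.prod_range_succ' θ h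
  rw [h1, hper] at h2
  exact (mul_right_cancel₀ h0 h2).symm

theorem sR0 (hO4 : S_O4) (hO5 : S_O5) (hB1 : S_B1) (hB5 : S_B5) (hB7 : S_B7) : S_R0 := by
  intro k _
  obtain ⟨-, -, -, -, -, -, -, -, hne, -, -⟩ := hO4 k
  obtain ⟨h, α, hh, hα, hp⟩ := hO5 k (ppb k) hne
  refine ⟨h, α, hh, hα, hp, ?_⟩
  intro b hb
  have hne' : ∀ i : ℕ, ppb k ^ i * b ≠ ⊥ := by
    intro i
    rw [← Ideal.zero_eq_bot] at hne hb ⊢
    exact mul_ne_zero (pow_ne_zero i hne) hb
  have hsucc : ∀ i : ℕ, ppb k ^ (i + 1) * b = ppb k * (ppb k ^ i * b) := by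
    intro i
    rw [pow_succ', mul_assoc]
  have hper : ∀ i : ℕ, ThC (ppb k ^ (i + h) * b) = ThC (ppb k ^ i * b) := by
    intro i
    have e : ppb k ^ (i + h) * b = sp α * (ppb k ^ i * b) := by
      rw [pow_add, hp, mul_comm (ppb k ^ i), mul_assoc]
    rw [e]
    exact ((hB7 k _ (hne' i)).1 α hα).2.2.1
  have hD : ∀ i : ℕ, ThC (ppb k ^ i * b) ^ 2 = DC (ppb k ^ i * b) := by
    intro i
    obtain ⟨-, -, -, -, -, -, -, -, -, -, -, -, h1⟩ := hB1 k _ (hne' i)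
    exact h1
  have hn : ∀ i : ℕ, s2 (ppb k ^ i * b) ≠ 0 ∧ DC (ppb k ^ i * b) ≠ 0 ∧
      1 - 16 * DC (ppb k ^ i * b) ≠ 0 := by
    intro i
    obtain ⟨-, -, h1, h2, h3, -⟩ := hB1 k _ (hne' i)
    exact ⟨h1, h2, h3⟩
  have hθ : ∀ i : ℕ, ThC (ppb k ^ i * b) ≠ 0 := by
    intro i h0
    have h1 := hD i
    rw [h0] at h1
    exact (hn i).2.1 (by rw [← h1]; ring)
  have hrel : ∀ i : ℕ, ThC (ppb k ^ (i + 1) * b) ^ 2 * (1 + 4 * ThC (ppb k ^ i * b)) ^ 2 =
      ThC (ppb k ^ i * b) := by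
    intro i
    rw [hD (i + 1), hsucc i]
    exact (hB5 k _ (hne' i)).2.1
  refine ⟨hper, hrel, ?_, ?_⟩
  · intro i
    refine ⟨hθ i, ?_, (hD i).symm⟩
    rw [hD i]
    exact (hn i).2.2
  · have hs : ∀ n : ℕ, s2 (ppb k ^ n * b) =
        (∏ i ∈ Finset.range n, (1 + 4 * ThC (ppb k ^ i * b))) ^ 2 * s2 b := by
      intro n
      induction n with
      | zero =>
        rw [Finset.prod_range_zero, one_pow, one_mul, pow_zero, one_mul]
      | succ n ih =>
        rw [hsucc n, (hB5 k _ (hne' n)).2.2.1, ih, Finset.prod_range_succ]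
        ring
    have hb0 : s2 b ≠ 0 := by
      have := (hn 0).1
      rwa [pow_zero, one_mul] at this
    have h1 : (∏ i ∈ Finset.range h, (1 + 4 * ThC (ppb k ^ i * b))) ^ 2 = toC α ^ 2 := by
      have h2 := hs h
      rw [hp, ((hB7 k b hb).1 α hα).2.2.2] at h2
      exact (mul_right_cancel₀ hb0 h2).symm
    have h3 : (∏ i ∈ Finset.range h, ThC (ppb k ^ (i + 1) * b)) =
        ∏ i ∈ Finset.range h, ThC (ppb k ^ i * b) := by
      refine R0_prod h (fun i => ThC (ppb k ^ i * b)) ?_ (hθ 0)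
      have := hper 0
      rwa [zero_add] at this
    have h4 : (∏ i ∈ Finset.range h, (ThC (ppb k ^ (i + 1) * b) ^ 2 *
        (1 + 4 * ThC (ppb k ^ i * b)) ^ 2)) = ∏ i ∈ Finset.range h, ThC (ppb k ^ i * b) :=
      Finset.prod_congr rfl fun i _ => hrel i
    rw [Finset.prod_mul_distrib, Finset.prod_pow, Finset.prod_pow, h3, h1] at h4
    have h5 : (∏ i ∈ Finset.range h, ThC (ppb k ^ i * b)) ≠ 0 :=
      Finset.prod_ne_zero_iff.2 fun i _ => hθ i
    apply mul_left_cancel₀ h5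
    rw [mul_one]
    linear_combination h4

end Pool.Agent.DK
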