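import Pool.Agent.Lib.DK.R.Spec

/-!
# Theorem DK, part R, module R0O: the cycle in `Om`
-/

set_option autoImplicit false

noncomputable section

namespace Pool.Agent.DK

open Pool.Agent.MuZ Pool.Agent.FW NumberField
open Pool.Agent.DI (io ofC io_inj exists_io io_ofC ofC_io VP MP UP TP ex sqr sqr_sq kap)

/-- The cycle in `Om`. -/
theorem sR0O (h0 : S_R0) (h1 : S_R1) : S_R0O := by
  intro k _
  obtain ⟨h, α, hh, hα, hp, H⟩ := h0 k
  refine ⟨h, α, hh, hα, hp, ?_⟩
  intro b hb
  have hpp : ppb k ≠ ⊥ := by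
    intro h2
    have h3 : (2 : OO k) ∈ ppb k := Ideal.subset_span (by simp)
    rw [h2, Ideal.mem_bot] at h3
    have h4 := congrArg QuadraticAlgebra.re h3
    have h5 := re_nat (k := k) 2
    norm_num at h4 h5
    rw [h5] at h4
    norm_num at h4
  have hne : ∀ i : ℕ, ppb k ^ i * b ≠ ⊥ := fun i => mul_ne_zero (pow_ne_zero i hpp) hb
  have hT : ∀ i : ℕ, io (tO (ppb k ^ i * b)) = ThC (ppb k ^ i * b) := fun i => (h1 k _ (hne i)).2
  have hD : ∀ i : ℕ, io (dO (ppb k ^ i * b)) = DC (ppb k ^ i * b) := fun i => (h1 k _ (hne i)).1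
  obtain ⟨H1, H2, H3, H4⟩ := H b hb
  refine ⟨?_, ?_, ?_, ?_⟩
  · intro i
    apply io_inj
    rw [hT, hT, H1]
  · intro i
    apply io_inj
    rw [map_mul, map_pow, map_pow, map_add, map_mul, map_one, map_ofNat, hT, hT]
    exact H2 i
  · intro i
    obtain ⟨h5, h6, h7⟩ := H3 i
    refine ⟨?_, ?_, ?_⟩
    · intro h8
      apply h5
      rw [← hT, h8, map_zero]
    · intro h8
      apply h6
      have h9 := congrArg io h8
      rw [map_sub, map_mul, map_pow, map_one, map_ofNat, map_zero, hT] at h9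
      exact h9
    · apply io_inj
      rw [hD, map_pow, hT]
      exact h7
  · apply io_inj
    rw [map_mul, map_prod, map_pow, map_one, io_toO]
    rw [← H4]
    congr 1
    exact Finset.prod_congr rfl fun i _ => hT i

end Pool.Agent.DK
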