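import Pool.Agent.Lib.DK.R.Spec

/-!
# Theorem DK, module R1: the numbers `ThC b` and `DC b` are algebraic
-/

set_option autoImplicit false

noncomputable section

namespace Pool.Agent.DK

open Pool.Agent.DI (io ofC io_ofC)

/-- The statement `S_R1`, from the statements `S_RA`, `S_RB`, `S_R0`. -/
theorem sR1 (hRA : S_RA) (hRB : S_RB) (hR0 : S_R0) : S_R1 := by
  intro k _ b hb
  have halg : IsAlgebraic ℚ (ThC b) := by
    by_contra hna
    obtain ⟨V, hV, hx⟩ := hRA (ThC b) hna
    obtain ⟨h, α, hh, _, _, H⟩ := hR0 k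
    obtain ⟨hper, hrel, _, _⟩ := H b hb
    have h4 : V.valuation (4 : ℂ) = 1 := by
      have h4a : V.valuation (4 : ℂ) ≤ 1 := by
        rw [V.valuation_le_one_iff]
        exact hV 4 (by simpa using isAlgebraic_algebraMap (R := ℚ) (A := ℂ) (4 : ℚ))
      have h4b : V.valuation ((4 : ℂ)⁻¹) ≤ 1 := by
        rw [V.valuation_le_one_iff]
        exact hV _ (by simpa using isAlgebraic_algebraMap (R := ℚ) (A := ℂ) ((4 : ℚ)⁻¹))
      apply le_antisymm h4a
      have hprod : V.valuation (4 : ℂ) * V.valuation ((4 : ℂ)⁻¹) = 1 := by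
        rw [← map_mul, mul_inv_cancel₀ (by norm_num : (4 : ℂ) ≠ 0), map_one]
      calc (1 : V.ValueGroup) = V.valuation (4 : ℂ) * V.valuation ((4 : ℂ)⁻¹) := hprod.symm
        _ ≤ V.valuation (4 : ℂ) * 1 := by gcongr
        _ = V.valuation (4 : ℂ) := mul_one _
    have hle := hRB ℂ V h (fun i => ThC (ppb k ^ i * b)) hh hper hrel h4 0
    simp only [pow_zero, one_mul] at hle
    rw [V.valuation_le_one_iff] at hle
    exact hx hle
  have hD : IsAlgebraic ℚ (DC b) := by
    obtain ⟨h, α, _, _, _, H⟩ := hR0 k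
    obtain ⟨_, _, h3, _⟩ := H b hb
    have h30 := (h3 0).2.2
    rw [pow_zero, one_mul] at h30
    rw [h30]
    exact halg.pow 2
  exact ⟨io_ofC _ hD, io_ofC _ halg⟩

end Pool.Agent.DK
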