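import Pool.Agent.Lib.DK.R.Spec

/-!
# Theorem DK, module `R2`: `S_R2`, assembly with complex conjugation
-/

set_option autoImplicit false

open scoped Pointwise nonZeroDivisors

noncomputable section

namespace Pool.Agent.DK

open Pool.Agent.MuZ Pool.Agent.FW NumberField IsDedekindDomain
open Pool.Agent.DI (io ofC io_inj exists_io io_ofC ofC_io VP MP UP TP ex sqr sqr_sq kap)

private theorem R2_cj_ne (h1 : S_O3) {k : ℕ} [SqK k] {b : Ideal (OO k)} (hb : b ≠ ⊥) :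
    cjI b ≠ ⊥ := by
  intro h0
  obtain ⟨-, -, h3, h4, -⟩ := h1 k
  have h5 : cjI (cjI b) = b := (h3 b).1
  have h6 : cjI (sp (0 : OO k)) = sp (cjO 0) := h4 0
  have h7 : sp (0 : OO k) = ⊥ := Ideal.span_singleton_eq_bot.2 rfl
  rw [cjO_zero, h7] at h6
  rw [h0, h6] at h5
  exact hb h5.symm

theorem sR2 (h1 : S_O3) (h2 : S_R2a) (h3 : S_R4) : S_R2 := by
  intro k _ b hb Q hQ
  refine ⟨(h2 k b hb Q hQ).1, (h2 k b hb Q hQ).2, fun hPb => ?_⟩
  obtain ⟨-, c, -, h4⟩ := h3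
  obtain ⟨h5, -, -, h6⟩ := h4 k b hb
  have hP : AbP k (c • Q) := h6 Q hPb
  have h7 : UP (c • Q) (dO (cjI b)) :=
    ((h2 k (cjI b) (R2_cj_ne h1 hb) (c • Q) hP.1).2 hP).1
  have h8 : c ((1 - 16 * dO b) / 16) = dO (cjI b) := by
    have e16 : c (16 : Om) = 16 := map_ofNat c 16
    rw [map_div₀, map_sub, map_mul, map_one, e16, h5]
    ring
  rw [← h8] at h7
  exact (DI.UP.smul c).1 h7

end Pool.Agent.DK
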