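import Pool.Agent.Lib.DK.R.Spec

/-!
# Theorem DK, module R2a: `𝒟` and `θ` are units
-/

set_option autoImplicit false

noncomputable section

namespace Pool.Agent.DK

open Pool.Agent.MuZ Pool.Agent.FW NumberField IsDedekindDomain
open Pool.Agent.DI (io ofC io_inj exists_io io_ofC ofC_io VP MP UP TP ex sqr sqr_sq kap)

variable {k : ℕ}

private theorem R2a_NI_pow [SqK k] (hO2 : S_O2) (a : Ideal (OO k)) (n : ℕ) :
    NI (a ^ n) = NI a ^ n := by
  obtain ⟨-, -, -, h4, h5, -⟩ := hO2 k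
  induction n with
  | zero =>
    rw [pow_zero, pow_zero, Ideal.one_eq_top, ← Ideal.span_singleton_one]
    have h := h4 1
    rw [Nm_one] at h
    exact_mod_cast h
  | succ n ih => rw [pow_succ, h5, ih, pow_succ]

private theorem R2a_two [SqK k] (hO2 : S_O2) (hO4 : S_O4) {h : ℕ} {α : OO k}
    (hα : ppb k ^ h = sp α) : toO α * toO (cjO α) = 2 ^ h := by
  obtain ⟨-, -, -, h4, -⟩ := hO2 k
  obtain ⟨-, -, -, -, -, h6, -⟩ := hO4 k
  have h1 : (Nm α : ℤ) = 2 ^ h := by
    rw [← h4 α, ← hα, R2a_NI_pow hO2, h6]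
    push_cast
    rfl
  rw [← toO_mul, mul_cjO, toO_int, h1]
  push_cast
  rfl

theorem sR2a (hO2 : S_O2) (hO4 : S_O4) (hRV : S_RV) (hRC : S_RC) (hRD : S_RD) (hR0 : S_R0O)
    (hR1 : S_R1) (hB6 : S_B6) : S_R2a := by
  intro k _ b hb Q hQ
  haveI : Q.IsPrime := hQ.1
  obtain ⟨V, hV1, hV2, hV3⟩ := hRV Q hQ
  obtain ⟨h, α, hh, hα, hαI, hcyc⟩ := hR0 k
  have hsplit := R2a_two hO2 hO4 hαI
  have e0 : ∀ c : Ideal (OO k), ppb k ^ 0 * c = c := fun c => by rw [pow_zero, one_mul]
  have hd : ∀ c : Ideal (OO k), c ≠ ⊥ → dO c = tO c ^ 2 := by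
    intro c hc
    obtain ⟨-, -, h3, -⟩ := hcyc c hc
    have := (h3 0).2.2
    rwa [e0] at this
  constructor
  · intro h2
    have u2 : UP Q (2 : Om) := ⟨by simpa using VP.nat (P := Q) 2, h2⟩
    have u4 : UP Q (4 : Om) := by
      have := u2.mul u2
      norm_num at this
      exact this
    have uα : UP Q (toO α) := by
      refine ⟨toO_VP α, fun h1 => ?_⟩
      have h3 := MP.mul_right h1 (toO_VP (P := Q) (cjO α))
      rw [hsplit] at h3
      exact h2 (MP.of_pow h3)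
    obtain ⟨c1, c2, c3, c4⟩ := hcyc b hb
    obtain ⟨g1, g2, g3⟩ := hRC Om V h (toO α) (fun i => tO (ppb k ^ i * b)) hh c1 c2
      (fun i => ⟨(c3 i).1, (c3 i).2.1⟩) c4 ((hV3 _).2 uα) ((hV3 _).2 u4) 0
    simp only [e0] at g1 g2 g3
    have w1 := (hV3 _).1 g1
    refine ⟨?_, ?_, w1, (hV3 _).1 g2⟩
    · rw [hd b hb]
      exact w1.pow 2
    · rw [hd b hb]
      exact (hV3 _).1 g3
  · rintro ⟨-, h2, hw⟩
    have uα : UP Q (toO α) := by
      refine ⟨toO_VP α, fun h1 => ?_⟩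
      have hmem : (1 - wI k) ^ h ∈ ppb k ^ h :=
        Ideal.pow_mem_pow (Ideal.subset_span (by simp)) h
      rw [hαI] at hmem
      obtain ⟨c, hc⟩ := Ideal.mem_span_singleton'.1 hmem
      have h3 : MP Q (toO ((1 - wI k) ^ h)) := by
        rw [← hc, toO_mul]
        exact MP.mul_left (toO_VP c) h1
      rw [toO_pow, toO_sub, toO_one, toO_wI] at h3
      have h4 := MP.of_pow h3
      have h5 := h4.add hw
      rw [sub_add_cancel] at h5
      exact MP.one_not h5
    have ut : ∀ c : Ideal (OO k), c ≠ ⊥ → UP Q (tO c) := by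
      intro c hc
      obtain ⟨c1, c2, c3, c4⟩ := hcyc c hc
      have g := hRD Om V h (toO α) (fun i => tO (ppb k ^ i * c)) hh c1 c2 c4 ((hV3 _).2 uα)
        ((hV2 _).2 h2) 0
      simp only [e0] at g
      exact (hV3 _).1 g
    obtain ⟨-, -, -, -, -, -, -, hpp, -⟩ := hO4 k
    have hppb : pp k * b ≠ ⊥ := fun h => (Ideal.mul_eq_bot.1 h).elim hpp hb
    have ub := ut b hb
    have up := ut _ hppb
    have ud : UP Q (dO b) := by rw [hd b hb]; exact ub.pow 2
    have hrel : dO b * (1 + 4 * tO (pp k * b)) ^ 2 = tO (pp k * b) := by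
      apply io_inj
      rw [map_mul, map_pow, map_add, map_mul, map_one, map_ofNat, (hR1 k b hb).1,
        (hR1 k _ hppb).2]
      exact (hB6 k b hb).2.1
    have m1 : MP Q (tO (pp k * b) - dO b) := by
      have e : tO (pp k * b) - dO b =
          2 * (dO b * (tO (pp k * b) * (4 * (1 + 2 * tO (pp k * b))))) := by
        linear_combination -hrel
      rw [e]
      have v4 : VP Q (4 : Om) := by simpa using VP.nat (P := Q) 4
      have v2 : VP Q (2 : Om) := by simpa using VP.nat (P := Q) 2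
      exact MP.mul_right h2 (ud.1.mul (up.1.mul (v4.mul (VP.one.add (v2.mul up.1)))))
    refine ⟨ud, ub, m1, ?_⟩
    have e : dO (pp k * b) - dO b ^ 2 =
        (tO (pp k * b) - dO b) * (tO (pp k * b) + dO b) := by
      rw [hd _ hppb]
      ring
    rw [e]
    exact MP.mul_right m1 (up.1.add ud.1)

end Pool.Agent.DK
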