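import Pool.Agent.Lib.DK.R.Spec

/-!
# Theorem DK, part R, module `R3`: injectivity of `𝒟` modulo the primes above `𝔭`
-/

set_option autoImplicit false

open scoped Pointwise nonZeroDivisors

noncomputable section

namespace Pool.Agent.DK

open Pool.Agent.MuZ Pool.Agent.FW NumberField IsDedekindDomain
open Pool.Agent.DI (io ofC io_inj exists_io io_ofC ofC_io VP MP UP TP ex sqr sqr_sq kap)

/-- One step of the chain: from `d - d' ∈ M_P` to `t ^ 2 - t' ^ 2 = (d - d') m`, `m ∈ M_P`. -/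
private theorem R3_step (P : Ideal ZZ) [hP : P.IsPrime] (h2 : MP P 2) (d d' t t' : Om)
    (ht : UP P t) (ht' : UP P t') (e : d * (1 + 4 * t) ^ 2 = t)
    (e' : d' * (1 + 4 * t') ^ 2 = t') (h : MP P (d - d')) :
    ∃ m : Om, MP P m ∧ t ^ 2 - t' ^ 2 = (d - d') * m := by
  have h4 : MP P (4 : Om) := by
    have h3 : MP P ((2 : Om) * 2) := DI.MP.mul_left h2.vp h2
    have e4 : (2 : Om) * 2 = 4 := by norm_num
    rwa [e4] at h3
  have u1 : UP P (1 + 4 * t) := by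
    refine DI.UP.congr DI.UP.one ?_
    have e1 : 1 + 4 * t - 1 = 4 * t := by ring
    rw [e1]
    exact DI.MP.mul_right h4 ht.1
  have u2 : UP P (1 + 4 * t') := by
    refine DI.UP.congr DI.UP.one ?_
    have e1 : 1 + 4 * t' - 1 = 4 * t' := by ring
    rw [e1]
    exact DI.MP.mul_right h4 ht'.1
  have u3 : UP P (1 - 16 * (t * t')) := by
    refine DI.UP.congr DI.UP.one ?_
    have e1 : 1 - 16 * (t * t') - 1 = 4 * (-4 * (t * t')) := by ring
    rw [e1]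
    exact DI.MP.mul_right h4 (DI.VP.mul h4.vp.neg (DI.VP.mul ht.1 ht'.1))
  have r : (d - d') * ((1 + 4 * t) ^ 2 * (1 + 4 * t') ^ 2) = (t - t') * (1 - 16 * (t * t')) := by
    linear_combination (1 + 4 * t') ^ 2 * e - (1 + 4 * t) ^ 2 * e'
  have hA : VP P ((1 + 4 * t) ^ 2 * (1 + 4 * t') ^ 2 * (1 - 16 * (t * t'))⁻¹) :=
    DI.VP.mul (DI.VP.mul (u1.pow 2).1 (u2.pow 2).1) u3.inv.1
  have r' : t - t' = (d - d') * ((1 + 4 * t) ^ 2 * (1 + 4 * t') ^ 2 * (1 - 16 * (t * t'))⁻¹) := by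
    rw [← mul_assoc, r, mul_assoc, mul_inv_cancel₀ u3.ne_zero, mul_one]
  have h5 : MP P (t - t') := by
    rw [r']
    exact DI.MP.mul_right h hA
  have h6 : MP P (t + t') := by
    have e1 : t + t' = (t - t') + 2 * t' := by ring
    rw [e1]
    exact DI.MP.add h5 (DI.MP.mul_right h2 ht'.1)
  refine ⟨(1 + 4 * t) ^ 2 * (1 + 4 * t') ^ 2 * (1 - 16 * (t * t'))⁻¹ * (t + t'),
    DI.MP.mul_left hA h6, ?_⟩
  rw [← mul_assoc, ← r']
  ring

/-- **`S_R3`**: injectivity of `𝒟` modulo the primes above `𝔭`. -/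
theorem sR3 (hO4 : S_O4) (hO5 : S_O5) (hB6 : S_B6) (hB7 : S_B7) (hR1 : S_R1) (hR2a : S_R2a)
    (hB1 : S_B1) : S_R3 := by
  intro k _ b b' hb hb' P hP h0
  have hPp : P.IsPrime := hP.1.1
  obtain ⟨-, -, -, -, -, -, -, hpp, -, -, -⟩ := hO4 k
  obtain ⟨h, β, hh, hβ, hpow⟩ := hO5 k (pp k) hpp
  have hne : ∀ c : Ideal (OO k), c ≠ ⊥ → pp k * c ≠ ⊥ := fun c hc => mul_ne_zero hpp hc
  have key : ∀ c : Ideal (OO k), c ≠ ⊥ → UP P (tO (pp k * c)) ∧
      dO c * (1 + 4 * tO (pp k * c)) ^ 2 = tO (pp k * c) ∧ dO (pp k * c) = tO (pp k * c) ^ 2 := by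
    intro c hc
    have hc' := hne c hc
    refine ⟨((hR2a k (pp k * c) hc' P hP.1).2 hP).2.1, ?_, ?_⟩
    · apply io_inj
      have h1 := (hB6 k c hc).2.1
      simp only [map_mul, map_pow, map_add, map_one, map_ofNat, (hR1 k c hc).1,
        (hR1 k (pp k * c) hc').2]
      exact h1
    · apply io_inj
      have h1 := (hB1 k (pp k * c) hc').2.2.2.2.2.2.2.2.2.2.2.2
      rw [map_pow, (hR1 k (pp k * c) hc').1, (hR1 k (pp k * c) hc').2, h1]
  have hj : ∀ (c : Ideal (OO k)) (j : ℕ), c ≠ ⊥ → pp k ^ j * c ≠ ⊥ := fun c j hc =>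
    mul_ne_zero (pow_ne_zero j hpp) hc
  have main : ∀ j : ℕ, ∃ μ : Om, VP P μ ∧ (0 < j → MP P μ) ∧
      dO (pp k ^ j * b) - dO (pp k ^ j * b') = (dO b - dO b') * μ := by
    intro j
    induction j with
    | zero =>
      refine ⟨1, DI.VP.one, fun h1 => absurd h1 (lt_irrefl 0), ?_⟩
      rw [pow_zero, one_mul, one_mul, mul_one]
    | succ j ih =>
      obtain ⟨μ, hμ, -, he⟩ := ih
      obtain ⟨k1, k2, k3⟩ := key (pp k ^ j * b) (hj b j hb)
      obtain ⟨l1, l2, l3⟩ := key (pp k ^ j * b') (hj b' j hb')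
      have hm : MP P (dO (pp k ^ j * b) - dO (pp k ^ j * b')) := by
        rw [he]
        exact DI.MP.mul_right h0 hμ
      obtain ⟨m, hm1, hm2⟩ := R3_step P hP.2.1 _ _ _ _ k1 l1 k2 l2 hm
      refine ⟨μ * m, (DI.MP.mul_left hμ hm1).vp, fun _ => DI.MP.mul_left hμ hm1, ?_⟩
      rw [pow_succ', mul_assoc, mul_assoc, k3, l3, hm2, he, mul_assoc]
  obtain ⟨μ, -, hμ, he⟩ := main h
  have hper : ∀ c : Ideal (OO k), c ≠ ⊥ → dO (pp k ^ h * c) = dO c := by
    intro c hc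
    have h1 := ((hB7 k c hc).1 β hβ).2.1
    unfold dO
    rw [hpow, h1]
  rw [hper b hb, hper b' hb'] at he
  have h1 : (dO b - dO b') * (1 - μ) = 0 := by
    rw [mul_sub, mul_one, ← he, sub_self]
  rcases mul_eq_zero.1 h1 with h2 | h2
  · exact sub_eq_zero.1 h2
  · exfalso
    have h3 : (1 : Om) = μ := sub_eq_zero.1 h2
    have h4 := hμ hh
    rw [← h3] at h4
    exact DI.MP.one_not h4

end Pool.Agent.DK
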