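import Pool.Agent.Lib.DK.R.Spec
import Pool.Agent.Lib.DI.B.A12

/-!
# Theorem DK, part R, module `R4`: complex conjugation on `Om`
-/

set_option autoImplicit false

open scoped Pointwise

noncomputable section

namespace Pool.Agent.DK

open Pool.Agent.MuZ Pool.Agent.FW NumberField
open Pool.Agent.DI (io ofC io_inj exists_io io_ofC ofC_io VP MP UP TP ex sqr sqr_sq kap)

variable {k : ℕ}

private theorem R4_cjI_ne {b : Ideal (OO k)} (hb : b ≠ ⊥) : cjI b ≠ ⊥ := by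
  obtain ⟨v, hv, hv0⟩ := Submodule.exists_mem_ne_zero_of_ne_bot hb
  intro h
  have h1 : cjO v ∈ cjI b := Ideal.subset_span ⟨v, hv, rfl⟩
  rw [h, Ideal.mem_bot] at h1
  apply hv0
  rw [← cjO_cjO v, h1, cjO_zero]

private theorem R4_tor_conj {z : ℂ} (h : Tor k z) : Tor k ((starRingEnd ℂ) z) := by
  obtain ⟨v, n, hn, rfl⟩ := h
  exact ⟨cjO v, n, hn, by rw [map_div₀, conj_toC, map_natCast]⟩

private theorem R4_w [SqK k] {c : Gal(Om/ℚ)} (hc : ∀ x : Om, io (c x) = (starRingEnd ℂ) (io x)) :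
    c (wO k) = 1 - wO k := by
  apply io_inj
  rw [hc, io_wO, conj_wC, map_sub, map_one, io_wO]

private theorem R4_npr {P : Ideal ZZ} (c : Gal(Om/ℚ)) (h : Npr P) : Npr (c • P) := by
  obtain ⟨h1, h2⟩ := h
  have := h1
  refine ⟨inferInstance, ?_⟩
  intro h3
  apply h2
  have h4 : c⁻¹ • c • P = c⁻¹ • (⊥ : Ideal ZZ) := by rw [h3]
  rw [inv_smul_smul] at h4
  rw [h4]
  simp

theorem sR4 (_ : S_L2) (hB7 : S_B7) (hR1 : S_R1) (hR4a : S_R4a) : S_R4 := by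
  have hx : ∀ (k : ℕ) [SqK k] (b : Ideal (OO k)), b ≠ ⊥ → ∀ z : ℂ, Tor k z → io (xO b z) = XC b z :=
    fun k _ b hb z hz => io_ofC _ (hR4a k b hb z hz)
  refine ⟨hx, ?_⟩
  obtain ⟨c, hc⟩ := Pool.Agent.DI.tA1
  refine ⟨c, hc, ?_⟩
  intro k _ b hb
  have hcb : cjI b ≠ ⊥ := R4_cjI_ne hb
  obtain ⟨-, hX, -, hD, -⟩ := hB7 k b hb
  refine ⟨?_, ?_, ?_, ?_⟩
  · apply io_inj
    rw [hc, (hR1 k b hb).1, hD, map_div₀, map_sub, map_mul, map_one, (hR1 k (cjI b) hcb).1,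
      map_ofNat]
  · intro z hz hzb
    apply io_inj
    rw [hc, hx k b hb z hz, hX z hzb, map_sub, map_neg, hx k (cjI b) hcb _ (R4_tor_conj hz),
      map_div₀, map_one, map_ofNat]
  · rintro P ⟨h1, h3, h4⟩
    refine ⟨R4_npr c h1, ?_, ?_⟩
    · have h5 := (Pool.Agent.DI.MP.smul (P := P) c (x := (2 : Om))).2 h3
      rwa [map_ofNat] at h5
    · have h5 := (Pool.Agent.DI.MP.smul (P := P) c (x := wO k)).2 h4
      rwa [R4_w hc] at h5
  · rintro P ⟨h1, h3, h4⟩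
    refine ⟨R4_npr c h1, ?_, ?_⟩
    · have h5 := (Pool.Agent.DI.MP.smul (P := P) c (x := (2 : Om))).2 h3
      rwa [map_ofNat] at h5
    · have h5 := (Pool.Agent.DI.MP.smul (P := P) c (x := 1 - wO k)).2 h4
      rwa [map_sub, map_one, R4_w hc, sub_sub_cancel] at h5

end Pool.Agent.DK
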