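import Pool.Agent.Lib.DK.R.Spec

/-!
# Theorem DK, part R, module R5: the framing and `g` in `Om`
-/

set_option autoImplicit false

open scoped Pointwise nonZeroDivisors

noncomputable section

namespace Pool.Agent.DK

open Pool.Agent.MuZ Pool.Agent.FW NumberField IsDedekindDomain
open Pool.Agent.DI (io ofC io_inj exists_io io_ofC ofC_io VP MP UP TP ex sqr sqr_sq kap)

private theorem R5_io (x : Om) : IsAlgebraic ℚ (io x) := by
  have h : IsAlgebraic ℚ x := Algebra.IsAlgebraic.isAlgebraic x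
  obtain ⟨p, hp, h0⟩ := h
  refine ⟨p, hp, ?_⟩
  have h1 := congrArg io h0
  rw [map_zero, Polynomial.aeval_def, Polynomial.hom_eval₂,
    RingHom.ext_rat (io.comp (algebraMap ℚ Om)) (algebraMap ℚ ℂ)] at h1
  rw [Polynomial.aeval_def]
  exact h1

private theorem R5_sq {x y : ℂ} (h : x ^ 2 = y) (hy : IsAlgebraic ℚ y) : IsAlgebraic ℚ x :=
  IsAlgebraic.of_pow two_pos (h ▸ hy)

/-- The number `W2 b z` in `ℂ`. -/
private theorem R5_W (r1 : S_R1) (r4 : S_R4) {k : ℕ} [SqK k] {b : Ideal (OO k)} (hb : b ≠ ⊥) {z : ℂ}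
    (hz : Tor k z) : io (W2 b z) = XC b z * (XC b z + 4 * DC b) * (4 * XC b z + 1) := by
  unfold W2
  simp only [map_mul, map_add, map_one, map_ofNat]
  rw [r4.1 k b hb z hz, (r1 k b hb).1]

private theorem R5_alg1 {F F' s s' N N' W W' : ℂ} (hF : F ≠ 0) (hs : s ≠ 0) (hN : N ≠ 0) (hW : W ≠ 0)
    (hW' : W' ≠ 0) (h : F ^ 2 * W = s * N ^ 2) (h' : F' ^ 2 * W' = s' * N' ^ 2) :
    (F' / F) ^ 2 = (s' / s) * (N' ^ 2 * W * (W' * N ^ 2)⁻¹) := by
  have e1 : F ^ 2 = s * N ^ 2 / W := by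
    field_simp
    exact h
  have e2 : F' ^ 2 = s' * N' ^ 2 / W' := by
    field_simp
    exact h'
  rw [div_pow, e1, e2]
  field_simp

private theorem R5_alg2 {F s N W w Wz : ℂ} (hF : F ≠ 0) (hs : s ≠ 0) (hN : N ≠ 0) (hW : W ≠ 0)
    (h : F ^ 2 * W = s * N ^ 2) (hw : w ^ 2 = s ^ 3 * Wz) :
    (w / F ^ 3) ^ 2 = Wz * W ^ 3 * (N ^ 6)⁻¹ ∧ (w / (F * s)) ^ 2 = Wz * W * (N ^ 2)⁻¹ := by
  have e1 : F ^ 2 = s * N ^ 2 / W := by
    field_simp
    exact h
  constructor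
  · have e2 : (w / F ^ 3) ^ 2 = w ^ 2 / (F ^ 2) ^ 3 := by
      rw [div_pow]
      ring
    rw [e2, hw, e1]
    field_simp
  · have e2 : (w / (F * s)) ^ 2 = w ^ 2 / (F ^ 2 * s ^ 2) := by
      rw [div_pow]
      ring
    rw [e2, hw, e1]
    field_simp

/-- The framing and `g` in `Om`. -/
theorem sR5 (b1 : S_B1) (b2 : S_B2) (b11 : S_B11) (b14 : S_B14) (r1 : S_R1) (r4 : S_R4)
    (r5a : S_R5a) (r5b : S_R5b) : S_R5 := by
  intro k _ f m b b' hf hf3 hm hb hb' hm2 _ hbf hbf'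
  obtain ⟨_, hN, hW, hF, hE⟩ := r5b k f b hf hf3 hb hbf
  obtain ⟨_, hN', hW', hF', hE'⟩ := r5b k f b' hf hf3 hb' hbf'
  have hs := (b1 k b hb).2.2.1
  set N : Om := 6 * xO b (1 / f) ^ 2 + (1 + 16 * dO b) * xO b (1 / f) + 2 * dO b with hNd
  set N' : Om := 6 * xO b' (1 / f) ^ 2 + (1 + 16 * dO b') * xO b' (1 / f) + 2 * dO b' with hNd'
  have hNi : io N ≠ 0 := (map_ne_zero io).2 hN
  have hWi : io (W2 b (1 / f)) ≠ 0 := (map_ne_zero io).2 hW
  have hWi' : io (W2 b' (1 / f)) ≠ 0 := (map_ne_zero io).2 hW'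
  refine ⟨hF, ?_, ?_⟩
  · apply io_ofC
    apply R5_sq (R5_alg1 hF hs hNi hWi hWi' hE hE')
    exact (r5a k b b' hb hb').mul ((((R5_io _).pow 2).mul (R5_io _)).mul
      (((R5_io _).mul ((R5_io _).pow 2)).inv))
  · intro z hz
    have hkey : z ∉ Lam b → IsAlgebraic ℚ (wdC b z / fr f b ^ 3) ∧
        IsAlgebraic ℚ (wdC b z / (fr f b * s2 b)) := by
      intro hzb
      have h2 := (b2 k b hb z hzb).1
      rw [← R5_W r1 r4 hb hz] at h2
      obtain ⟨h3, h4⟩ := R5_alg2 hF hs hNi hWi hE h2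
      exact ⟨R5_sq h3 (((R5_io _).mul ((R5_io _).pow 3)).mul ((R5_io _).pow 6).inv),
        R5_sq h4 (((R5_io _).mul (R5_io _)).mul ((R5_io _).pow 2).inv)⟩
    refine ⟨?_, ?_⟩
    · apply io_ofC
      by_cases hzb : z ∈ Lam b
      · rw [((b1 k b hb).2.2.2.2.2.2.2.2.1 z hzb).2, zero_div]
        exact isAlgebraic_zero
      · exact (hkey hzb).1
    · intro hzm
      have hzb : z ∉ Lam b := fun h => hzm (lam_mono h)
      have hmb : m * b ≠ ⊥ := mul_ne_zero hm hb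
      apply io_ofC
      rw [b11 k f m b hf hf3 hm hb hm2 hbf z hzm]
      refine Finset.sum_induction _ (fun x => IsAlgebraic ℚ x) (fun _ _ h1 h2 => h1.add h2)
        isAlgebraic_zero (fun u hu => ?_)
      have hut : Tor k u := tor_lam hmb ((b14 k m b hm hb hm2).1.mem u hu).1
      have e : wdC b z / (fr f b * s2 b * (XC b z - XC b u)) =
          wdC b z / (fr f b * s2 b) * (io (xO b z) - io (xO b u))⁻¹ := by
        rw [r4.1 k b hb z hz, r4.1 k b hb u hut, ← div_div, div_eq_mul_inv]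
      rw [e]
      exact (hkey hzb).2.mul ((R5_io _).sub (R5_io _)).inv

end Pool.Agent.DK
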