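import Pool.Agent.Lib.DK.R.Spec

/-!
# Theorem DK, part R, module R5a: quotients of the numbers `s2` are algebraic
-/

set_option autoImplicit false

open scoped Pointwise nonZeroDivisors

noncomputable section

namespace Pool.Agent.DK

open Pool.Agent.MuZ Pool.Agent.FW NumberField IsDedekindDomain
open Pool.Agent.DI (io ofC io_inj exists_io io_ofC ofC_io VP MP UP TP ex sqr sqr_sq kap)

private theorem R5a_main (h3 : S_L3) (h6 : S_L6) (hB1 : S_B1) (hB9 : S_B9) (hR4a : S_R4a)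
    (k : ℕ) [SqK k] (a b : Ideal (OO k)) (ha : a ≠ ⊥) (hb : b ≠ ⊥) :
    IsAlgebraic ℚ (s2 (a * b) / s2 b) := by
  have hab : a * b ≠ ⊥ := mul_ne_zero ha hb
  obtain ⟨-, -, R, hR, -⟩ := h3 k a b ha hb
  obtain ⟨⟨-, hT, -⟩, ⟨-, hS, -⟩, ⟨hT2, hS2, -⟩, -⟩ := h6 k (a * b) hab
  have hTt : Tor k (ptT (a * b)) := (tor_iff hab).2 ⟨2, by norm_num, by exact_mod_cast hT2⟩
  have hSt : Tor k (ptS (a * b)) := (tor_iff hab).2 ⟨2, by norm_num, by exact_mod_cast hS2⟩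
  obtain ⟨-, -, -, -, -, -, -, -, -, hXS, hXT, -⟩ := hB1 k (a * b) hab
  obtain ⟨-, -, hs, -⟩ := hB1 k b hb
  have h := (hB9 k a b ha hb R hR).1 _ _ hS hT
  rw [hXS, hXT] at h
  have e : s2 (a * b) / s2 b =
      4 * ∑ u ∈ R, (XC b (ptS (a * b) + u) - XC b (ptT (a * b) + u)) := by
    rw [div_eq_iff hs]
    linear_combination 4 * h
  have hsum : IsAlgebraic ℚ (∑ u ∈ R, (XC b (ptS (a * b) + u) - XC b (ptT (a * b) + u))) := by
    refine Finset.sum_induction _ (fun x => IsAlgebraic ℚ x) (fun _ _ h1 h2 => h1.add h2)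
      isAlgebraic_zero (fun u hu => ?_)
    have hu' : Tor k u := tor_lam hab (hR.mem u hu)
    exact (hR4a k b hb _ (tor_add hSt hu')).sub (hR4a k b hb _ (tor_add hTt hu'))
  rw [e]
  exact (isAlgebraic_natCast 4).mul hsum

/-- Quotients of the numbers `s2` are algebraic. -/
theorem sR5a (h3 : S_L3) (_h4 : S_L4) (h6 : S_L6) (hB1 : S_B1) (hB9 : S_B9) (hR4a : S_R4a) :
    S_R5a := by
  intro k _ b b' hb hb'
  have h1 := R5a_main h3 h6 hB1 hB9 hR4a k b' b hb' hb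
  have h2 := R5a_main h3 h6 hB1 hB9 hR4a k b b' hb hb'
  rw [mul_comm b' b] at h1
  have hs : s2 b ≠ 0 := (hB1 k b hb).2.2.1
  have hs' : s2 b' ≠ 0 := (hB1 k b' hb').2.2.1
  have hs'' : s2 (b * b') ≠ 0 := (hB1 k (b * b') (mul_ne_zero hb hb')).2.2.1
  have e : s2 b' / s2 b = (s2 (b * b') / s2 b) * (s2 (b * b') / s2 b')⁻¹ := by
    field_simp
  rw [e]
  exact h1.mul h2.inv

end Pool.Agent.DK
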