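import Pool.Agent.Lib.DK.R.Spec
import Pool.Agent.Lib.DK.O.O2
import Pool.Agent.Lib.DK.O.O4

/-!
# Theorem DK, part R, module R5b: the framing is not zero, its square
-/

set_option autoImplicit false

open scoped Pointwise

noncomputable section

namespace Pool.Agent.DK

open Pool.Agent.MuZ Pool.Agent.FW NumberField IsDedekindDomain
open Pool.Agent.DI (io ofC io_inj exists_io io_ofC ofC_io VP MP UP TP ex sqr sqr_sq kap)

variable {k : ℕ}

/-- `2 (1/f)` is not a lattice point. -/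
private theorem R5b_two [SqK k] {f : ℕ} {b : Ideal (OO k)} (hf : 3 ≤ f) (hb : PrI b f) :
    2 * (1 / f : ℂ) ∉ Lam b := by
  intro h
  have hf' : (f : ℂ) ≠ 0 := by
    have : f ≠ 0 := by omega
    exact_mod_cast this
  have h1 : (1 : OO k) ∈ b ⊔ Ideal.span {(f : OO k)} := by
    unfold PrI at hb
    rw [hb]
    trivial
  obtain ⟨v, hv, w, hw, hvw⟩ := Submodule.mem_sup.1 h1
  obtain ⟨c, rfl⟩ := Ideal.mem_span_singleton.1 hw
  obtain ⟨u, hu⟩ := h v hv
  have h2 : (2 : OO k) * v = f * u := by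
    apply toC_inj
    rw [toC_mul, toC_mul, toC_nat, toC_two, ← hu]
    field_simp
  have h3 : (f : OO k) ∣ 2 := by
    refine ⟨u + 2 * c, ?_⟩
    linear_combination h2 - 2 * hvw
  have h4 := ((nat_dvd_iff f (2 : OO k)).1 h3).1
  have h5 : (2 : OO k).re = 2 := by
    have := re_nat (k := k) 2
    exact_mod_cast this
  rw [h5] at h4
  have h6 := Int.le_of_dvd (by norm_num) h4
  omega

/-- An odd number is not in a prime above `2`. -/
private theorem R5b_odd {P : Ideal ZZ} [P.IsPrime] (h2 : MP P 2) {f : ℕ} (hf : Odd f) :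
    ¬ MP P (f : Om) := by
  obtain ⟨m, rfl⟩ := hf
  intro h
  apply DI.MP.one_not (P := P)
  have h3 : MP P ((m : Om) * 2) := DI.MP.mul_left (DI.VP.nat m) h2
  have h4 := DI.MP.sub h h3
  have e : ((2 * m + 1 : ℕ) : Om) - (m : Om) * 2 = 1 := by
    push_cast
    ring
  rwa [e] at h4

/-- A multiple `c/f` which is `P`-primary is a lattice point. -/
private theorem R5b_qp [SqK k] {P : Ideal ZZ} [P.IsPrime] (h2 : MP P 2) {f : ℕ} (hf : Odd f)
    (hf0 : 0 < f) {b : Ideal (OO k)} (v : OO k) (h : Qp P b (toC v * (1 / f))) :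
    toC v * (1 / f) ∈ Lam b := by
  have h1 := h (f : OO k) 1 (by
    rw [toO_nat]
    exact R5b_odd h2 hf) (by
      rw [mul_one, toC_nat]
      have h3 := lam_mul v (one_div_lam b hf0)
      have e : toC v * ((f : ℂ) * (1 / f)) = (f : ℂ) * (toC v * (1 / f)) := by ring
      rwa [e] at h3)
  rwa [toC_one, one_mul] at h1

/-- `𝒟` is algebraic. -/
private theorem R5b_D [SqK k] (hB1 : S_B1) (hR4 : S_R4) (hL6 : S_L6) {b : Ideal (OO k)}
    (hb : b ≠ ⊥) : io (dO b) = DC b := by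
  obtain ⟨hT, hS, ⟨hT2, hS2, -⟩, -⟩ := hL6 k b hb
  obtain ⟨-, -, -, -, -, -, -, -, -, -, -, hx, -⟩ := hB1 k b hb
  have ht : Tor k (ptS b + ptT b) := by
    refine tor_add ((tor_iff hb).2 ⟨2, two_pos, ?_⟩) ((tor_iff hb).2 ⟨2, two_pos, ?_⟩)
    · exact_mod_cast hS2
    · exact_mod_cast hT2
  have h1 := hR4.1 k b hb _ ht
  rw [hx] at h1
  have h2 : io (-xO b (ptS b + ptT b) / 4) = DC b := by
    rw [map_div₀, map_neg, h1, map_ofNat]
    ring
  have h3 : dO b = -xO b (ptS b + ptT b) / 4 := by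
    unfold dO
    rw [← h2, ofC_io]
  rw [h3, h2]

/-- **R5b.** -/
theorem sR5b (hAbQ : S_AbQ) (hB1 : S_B1) (hB2 : S_B2) (hB12 : S_B12) (hR4 : S_R4) (hD1 : S_D1)
    (hD2 : S_D2) (hL6 : S_L6) : S_R5b := by
  intro k _ f b hf hf3 hb hbf
  have hf0 : 0 < f := by omega
  have h2z : 2 * (1 / f : ℂ) ∉ Lam b := R5b_two hf3 hbf
  have hz : (1 / f : ℂ) ∉ Lam b := fun h => h2z (by rw [two_mul]; exact lam_add h h)
  have htor : Tor k (1 / f : ℂ) := by
    have := tor_div (k := k) hf0 1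
    rwa [toC_one] at this
  -- a prime above `pp k`
  obtain ⟨-, -, hpp, -, -, -, -, hppne, -, -, -⟩ := sO4 sO2 k
  obtain ⟨-, hQ, -, -, hAb, -⟩ := hAbQ k
  obtain ⟨P, hP, hPpp⟩ := hQ (pp k) hpp hppne
  have hAbP : AbP k P := (hAb P).1.2 ⟨hP, hPpp⟩
  have hnot : ¬ AbPb k P := fun h => (hAb P).2.2.1 ⟨hAbP, h⟩
  have : P.IsPrime := hP.1
  have hP2 : MP P 2 := hAbP.2.1
  -- the point `1/f`
  have hq1 : ¬ Qp P b (1 / f : ℂ) := by
    intro h
    apply hz
    have h1 := R5b_qp hP2 hf hf0 (b := b) 1 (by rwa [toC_one, one_mul])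
    rwa [toC_one, one_mul] at h1
  obtain ⟨dadd, dlam, dmul, -, dqp, -, -⟩ := hD1 k b hb P hP hnot
  have hS2 : 2 * ptS b ∈ Lam b := (hL6 k b hb).2.2.1.2.1
  have hi1 : ¬ IK P b (1 / f + ptS b) := by
    intro h
    have h1 := dmul 2 _ h
    have h3 := dadd _ _ h1 (dlam _ (lam_neg hS2))
    have e : toC (2 : OO k) * (1 / f + ptS b) + -(2 * ptS b) = toC (2 : OO k) * (1 / f) := by
      rw [toC_two]
      ring
    rw [e] at h3
    have h4 := R5b_qp hP2 hf hf0 2 (dqp _ h3)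
    rw [toC_two] at h4
    exact h2z h4
  obtain ⟨-, -, -, -, dW, dI, dU⟩ := hD2 k b hb P hAbP
  have hXU : UP P (xO b (1 / f)) := dU _ htor hq1 hi1
  obtain ⟨hI, hXV⟩ := dI _ htor hq1
  obtain ⟨y, hy, hyW⟩ := dW _ htor hI
  -- the complex side
  have hX : io (xO b (1 / f)) = XC b (1 / f) := hR4.1 k b hb _ htor
  have hD : io (dO b) = DC b := R5b_D hB1 hR4 hL6 hb
  obtain ⟨-, -, hs2, -⟩ := hB1 k b hb
  obtain ⟨hw0, hfr, -⟩ := hB12 k f b hf hf3 hb hbf
  obtain ⟨hW, -⟩ := hB2 k b hb _ hz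
  -- the algebraic side
  obtain ⟨X, hXe⟩ : ∃ X : Om, X = xO b (1 / f) := ⟨_, rfl⟩
  obtain ⟨D, hDe⟩ : ∃ D : Om, D = dO b := ⟨_, rfl⟩
  rw [← hXe] at hXU hXV hyW hX
  rw [← hDe] at hyW hD
  have h4X : UP P (4 * X + 1) := by
    refine DI.UP.congr DI.UP.one ?_
    have e : 4 * X + 1 - 1 = 2 * X * 2 := by ring
    rw [e]
    refine DI.MP.mul_left (DI.VP.mul ?_ hXV) hP2
    exact hP2.vp
  have hDV : VP P D := by
    have h1 : UP P (X * (4 * X + 1)) := DI.UP.mul hXU h4X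
    have h2 : D = (y ^ 2 + X * y - X ^ 3) * (X * (4 * X + 1))⁻¹ := by
      rw [eq_mul_inv_iff_mul_eq₀ (DI.UP.ne_zero h1), hyW]
      ring
    rw [h2]
    refine DI.VP.mul (DI.VP.sub (DI.VP.add (DI.VP.pow hy 2) (DI.VP.mul hXV hy)) (DI.VP.pow hXV 3)) ?_
    exact (DI.UP.inv h1).1
  have hN : UP P (6 * X ^ 2 + (1 + 16 * D) * X + 2 * D) := by
    refine DI.UP.congr hXU ?_
    have e : 6 * X ^ 2 + (1 + 16 * D) * X + 2 * D - X = (3 * X ^ 2 + 8 * D * X + D) * 2 := by ring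
    rw [e]
    refine DI.MP.mul_left ?_ hP2
    have h3 : VP P (3 : Om) := by
      have := DI.VP.nat (P := P) 3
      exact_mod_cast this
    have h8 : VP P (8 : Om) := by
      have := DI.VP.nat (P := P) 8
      exact_mod_cast this
    exact DI.VP.add (DI.VP.add (DI.VP.mul h3 (DI.VP.pow hXV 2))
      (DI.VP.mul (DI.VP.mul h8 hDV) hXV)) hDV
  have hN0 : 6 * X ^ 2 + (1 + 16 * D) * X + 2 * D ≠ 0 := DI.UP.ne_zero hN
  have hioN : io (6 * X ^ 2 + (1 + 16 * D) * X + 2 * D) =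
      6 * XC b (1 / f) ^ 2 + (1 + 16 * DC b) * XC b (1 / f) + 2 * DC b := by
    simp only [map_add, map_mul, map_pow, map_ofNat, map_one, hX, hD]
  have hioW : io (W2 b (1 / f)) =
      XC b (1 / f) * (XC b (1 / f) + 4 * DC b) * (4 * XC b (1 / f) + 1) := by
    unfold W2
    rw [← hXe, ← hDe]
    simp only [map_add, map_mul, map_ofNat, map_one, hX, hD]
  have hioN0 : io (6 * X ^ 2 + (1 + 16 * D) * X + 2 * D) ≠ 0 := fun h => hN0 (io_inj (by rw [h, map_zero]))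
  rw [← hioW] at hW
  rw [← hioN] at hfr
  have hW0 : io (W2 b (1 / f)) ≠ 0 := by
    intro h
    rw [h, mul_zero] at hW
    exact hw0 (pow_eq_zero_iff (two_ne_zero) |>.1 hW)
  rw [← hXe, ← hDe]
  refine ⟨h2z, hN0, fun h => hW0 (by rw [h, map_zero]), ?_, ?_⟩
  · intro h
    rw [h, zero_mul] at hfr
    exact (mul_ne_zero (pow_ne_zero 2 hs2) hioN0) hfr.symm
  · have h1 : (fr f b * wdC b (1 / f)) ^ 2 =
        (s2 b ^ 2 * io (6 * X ^ 2 + (1 + 16 * D) * X + 2 * D)) ^ 2 := by rw [hfr]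
    rw [mul_pow, hW, mul_pow] at h1
    have h3 : s2 b ^ 3 ≠ 0 := pow_ne_zero 3 hs2
    apply mul_left_cancel₀ h3
    linear_combination h1

end Pool.Agent.DK
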