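import Pool.Agent.Lib.DK.R.Spec

/-!
# Theorem DK, part R, module RB: no poles on the cycle
-/

set_option autoImplicit false

noncomputable section

namespace Pool.Agent.DK

private lemma RB_step {F : Type} [Field F] (V : ValuationSubring F) (a b : F) (hab : b ^ 2 * (1 + 4 * a) ^ 2 = a)
    (h4 : V.valuation 4 = 1) (ha : V.valuation a < 1) : V.valuation b < 1 := by
  have h1 : V.valuation (4 * a) < 1 := by rw [map_mul, h4, one_mul]; exact ha
  have h2 : V.valuation (1 + 4 * a) = 1 := Valuation.map_one_add_of_lt _ h1
  have h3 : V.valuation b ^ 2 = V.valuation a := by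
    have := congrArg V.valuation hab
    rw [map_mul, map_pow, map_pow, h2, one_pow, mul_one] at this
    exact this
  by_contra hb
  push Not at hb
  have h5 : 1 ≤ V.valuation b ^ 2 := one_le_pow_of_one_le' hb 2
  rw [h3] at h5
  exact absurd ha (not_lt.mpr h5)

private lemma RB_pole {F : Type} [Field F] (V : ValuationSubring F) (a b : F) (hab : b ^ 2 * (1 + 4 * a) ^ 2 = a)
    (h4 : V.valuation 4 = 1) (ha : 1 < V.valuation a) : V.valuation b < 1 := by
  have h1 : V.valuation (4 * a) = V.valuation a := by rw [map_mul, h4, one_mul]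
  have h2 : V.valuation (1 + 4 * a) = V.valuation a := by
    rw [← h1]
    refine Valuation.map_add_eq_of_lt_right V.valuation ?_
    rw [map_one, h1]
    exact ha
  have ha0 : V.valuation a ≠ 0 := fun h => by
    rw [h] at ha
    exact absurd ha (not_lt.mpr zero_le)
  have h3 : V.valuation b ^ 2 * V.valuation a = 1 := by
    have := congrArg V.valuation hab
    rw [map_mul, map_pow, map_pow, h2] at this
    have h4 : V.valuation b ^ 2 * V.valuation a * V.valuation a = 1 * V.valuation a := by
      rw [one_mul, mul_assoc, ← sq]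
      exact this
    exact mul_right_cancel₀ ha0 h4
  by_contra hb
  push Not at hb
  have h5 : 1 ≤ V.valuation b ^ 2 := one_le_pow_of_one_le' hb 2
  have h6 : V.valuation a ≤ V.valuation b ^ 2 * V.valuation a := le_mul_of_one_le_left' h5
  rw [h3] at h6
  exact absurd ha (not_lt.mpr h6)

theorem sRB : S_RB := by
  intro F _ V h θ hh hper hrel h4 i
  by_contra hcon
  push Not at hcon
  have h1 : ∀ n : ℕ, V.valuation (θ (i + 1 + n)) < 1 := by
    intro n
    induction n with
    | zero => exact RB_pole V (θ i) (θ (i + 1)) (hrel i) h4 hcon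
    | succ n ih => exact RB_step V (θ (i + 1 + n)) (θ (i + 1 + n + 1)) (hrel (i + 1 + n)) h4 ih
  have h2 := h1 (h - 1)
  have h3 : i + 1 + (h - 1) = i + h := by omega
  rw [h3, hper] at h2
  exact absurd hcon (not_lt.mpr h2.le)

end Pool.Agent.DK
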