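import Pool.Agent.Lib.DK.R.Spec

/-!
# Theorem DK, part R, module RC: units on the cycle, residue characteristic not 2
-/

set_option autoImplicit false

noncomputable section

namespace Pool.Agent.DK

theorem sRC (hRB : S_RB) : S_RC := by
  intro F _ V h α θ hh hper hrel hne hprod hα h4
  have hle := hRB F V h θ hh hper hrel h4
  have hP : Function.Periodic θ h := hper
  -- the product of the valuations
  have hp1 : ∏ i ∈ Finset.range h, V.valuation (θ i) = 1 := by
    have := congrArg V.valuation hprod
    rw [map_mul, map_pow, hα, one_pow, mul_one, map_one, map_prod] at this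
    exact this
  have h1' : ∀ i ∈ Finset.range h, V.valuation (θ i) = 1 :=
    (Finset.prod_eq_one_iff_of_le_one' (fun i _ => hle i)).mp hp1
  have h1 : ∀ i, V.valuation (θ i) = 1 := by
    intro i
    rw [← hP.map_mod_nat i]
    exact h1' _ (Finset.mem_range.mpr (Nat.mod_lt _ hh))
  have h2 : ∀ i, V.valuation (1 + 4 * θ i) = 1 := by
    intro i
    have := congrArg V.valuation (hrel i)
    rw [map_mul, map_pow, map_pow, h1, h1, one_pow, one_mul] at this
    exact (pow_eq_one_iff.mp this).resolve_right (by norm_num)
  have hu : ∀ i, V.valuation (1 - 4 * θ (i + 1)) = V.valuation (1 - 4 * θ i) ^ 2 := by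
    intro i
    have e1 : (1 - 4 * θ (i + 1)) * (1 + 4 * θ (i + 1)) * (1 + 4 * θ i) ^ 2 = (1 - 4 * θ i) ^ 2 := by
      linear_combination -16 * hrel i
    have := congrArg V.valuation e1
    rw [map_mul, map_mul, map_pow, map_pow, h2, h2, one_pow, mul_one, mul_one] at this
    exact this
  have hun : ∀ i n, V.valuation (1 - 4 * θ (i + n)) = V.valuation (1 - 4 * θ i) ^ 2 ^ n := by
    intro i n
    induction n with
    | zero => rw [add_zero, pow_zero, pow_one]
    | succ n ih => rw [← add_assoc, hu, ih, ← pow_mul, pow_succ]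
  have h3 : ∀ i, V.valuation (1 - 4 * θ i) = 1 := by
    intro i
    have e1 := hun i h
    rw [hper] at e1
    have hne' : V.valuation (1 - 4 * θ i) ≠ 0 := by
      rw [Ne, map_eq_zero]
      intro h0
      apply (hne i).2
      linear_combination (1 + 4 * θ i) * h0
    have e2 : 2 ^ h = (2 ^ h - 1) + 1 := by
      have := Nat.one_le_two_pow (n := h)
      omega
    rw [e2, pow_succ] at e1
    have e3 : V.valuation (1 - 4 * θ i) ^ (2 ^ h - 1) = 1 := by
      refine mul_right_cancel₀ hne' ?_
      rw [one_mul]
      exact e1.symm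
    refine (pow_eq_one_iff.mp e3).resolve_right ?_
    have := Nat.lt_two_pow_self (n := h)
    omega
  intro i
  refine ⟨h1 i, h2 i, ?_⟩
  have e1 : 1 - 16 * θ i ^ 2 = (1 - 4 * θ i) * (1 + 4 * θ i) := by ring
  rw [e1, map_mul, h2, h3, one_mul]

end Pool.Agent.DK
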