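import Pool.Agent.Lib.DK.R.Spec

/-!
# Theorem DK, part R, module RD: units on the cycle above `𝔭`
-/

set_option autoImplicit false

noncomputable section

namespace Pool.Agent.DK

section RD

variable {F : Type} [Field F] (V : ValuationSubring F)

private theorem RD_lt_of_sq {x y : V.ValueGroup} (hy : y < 1) (h : x ^ 2 = y) : x < 1 := by
  by_contra hx
  rw [not_lt] at hx
  have h1 : 1 ≤ x ^ 2 := one_le_pow₀ hx
  rw [h] at h1
  exact absurd hy (not_lt.2 h1)

private theorem RD_step (h4 : V.valuation 4 < 1) {a b : F} (hab : b ^ 2 * (1 + 4 * a) ^ 2 = a)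
    (ha : V.valuation a < 1) : V.valuation b < 1 := by
  have h1 : V.valuation (4 * a) < 1 := by
    rw [map_mul]
    exact mul_lt_one_of_nonneg_of_lt_one_left zero_le h4 ha.le
  have h2 : V.valuation (1 + 4 * a) = 1 := V.valuation.map_one_add_of_lt h1
  have h3 := congrArg V.valuation hab
  rw [map_mul, map_pow, map_pow, h2, one_pow, mul_one] at h3
  exact RD_lt_of_sq V ha h3

private theorem RD_prod_le (θ : ℕ → F) (s : Finset ℕ) (hs : ∀ j ∈ s, 1 ≤ V.valuation (θ j)) :
    1 ≤ V.valuation (∏ i ∈ s, θ i) := by
  induction s using Finset.induction_on with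
  | empty => simp
  | insert a s ha ih =>
    rw [Finset.prod_insert ha, map_mul]
    exact one_le_mul_of_one_le_of_one_le (hs a (Finset.mem_insert_self a s))
      (ih fun j hj => hs j (Finset.mem_insert_of_mem hj))

private theorem RD_prod_lt (θ : ℕ → F) (hs : ∀ j, V.valuation (θ j) < 1) (n : ℕ) :
    V.valuation (∏ i ∈ Finset.range n, θ i) ≤ 1 ∧
      (0 < n → V.valuation (∏ i ∈ Finset.range n, θ i) < 1) := by
  induction n with
  | zero => simp
  | succ n ih =>
    have h1 : V.valuation (∏ i ∈ Finset.range (n + 1), θ i) < 1 := by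
      rw [Finset.prod_range_succ, map_mul]
      calc V.valuation (∏ i ∈ Finset.range n, θ i) * V.valuation (θ n)
          ≤ 1 * V.valuation (θ n) := mul_le_mul_left ih.1 _
        _ = V.valuation (θ n) := one_mul _
        _ < 1 := hs n
    exact ⟨h1.le, fun _ => h1⟩

omit [Field F] in
private theorem RD_per (θ : ℕ → F) (h : ℕ) (hp : ∀ i, θ (i + h) = θ i) (i m : ℕ) :
    θ (i + m * h) = θ i := by
  induction m with
  | zero => simp
  | succ m ih =>
    have e : i + (m + 1) * h = i + m * h + h := by ring
    rw [e, hp, ih]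

end RD

/-- Units on the cycle above `𝔭`. -/
theorem sRD : S_RD := by
  intro F _ V h α θ hh hp hr hpr hα h2
  have h4 : V.valuation 4 < 1 := by
    have e : (4 : F) = 2 * 2 := by norm_num
    rw [e, map_mul]
    exact mul_lt_one_of_nonneg_of_lt_one_left zero_le h2 h2.le
  have hprod : V.valuation (∏ i ∈ Finset.range h, θ i) = 1 := by
    have h1 := congrArg V.valuation hpr
    rwa [map_mul, map_pow, hα, one_pow, mul_one, map_one] at h1
  have hge : ∀ i, 1 ≤ V.valuation (θ i) := by
    intro i
    by_contra hi
    rw [not_le] at hi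
    have h5 : ∀ n, V.valuation (θ (i + n)) < 1 := by
      intro n
      induction n with
      | zero => exact hi
      | succ n ih => exact RD_step V h4 (hr (i + n)) ih
    have h6 : ∀ j, V.valuation (θ j) < 1 := by
      intro j
      have h7 : i ≤ j + i * h := by
        have : i ≤ i * h := Nat.le_mul_of_pos_right i hh
        omega
      obtain ⟨n, hn⟩ := Nat.exists_eq_add_of_le h7
      rw [← RD_per θ h hp j i, hn]
      exact h5 n
    have h8 := (RD_prod_lt V θ h6 h).2 hh
    rw [hprod] at h8
    exact lt_irrefl _ h8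
  have hlt : ∀ i, i < h → V.valuation (θ i) = 1 := by
    intro i hi
    refine le_antisymm ?_ (hge i)
    have h9 : i ∈ Finset.range h := Finset.mem_range.2 hi
    rw [← Finset.mul_prod_erase _ _ h9, map_mul] at hprod
    have h10 := RD_prod_le V θ ((Finset.range h).erase i) fun j _ => hge j
    calc V.valuation (θ i) = V.valuation (θ i) * 1 := (mul_one _).symm
      _ ≤ V.valuation (θ i) * V.valuation (∏ j ∈ (Finset.range h).erase i, θ j) :=
          mul_le_mul_right h10 _
      _ = 1 := hprod
  intro i
  have h11 : θ i = θ (i % h) := by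
    conv_lhs => rw [← Nat.mod_add_div i h, mul_comm h (i / h)]
    exact RD_per θ h hp (i % h) (i / h)
  rw [h11]
  exact hlt _ (Nat.mod_lt _ hh)

end Pool.Agent.DK
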