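import Pool.Agent.Lib.DK.R.Spec

/-!
# Theorem DK, module RV: the valuation ring of a prime `Q`
-/

set_option autoImplicit false

noncomputable section

namespace Pool.Agent.DK

open Pool.Agent.MuZ Pool.Agent.FW
open Pool.Agent.DI (VP MP UP)

/-- The valuation ring of `Q`. -/
private def RV_V (Q : Ideal ZZ) [hQ : Q.IsPrime] : ValuationSubring Om where
  carrier := {x | VP Q x}
  mul_mem' := fun hx hy => DI.VP.mul hx hy
  one_mem' := DI.VP.one
  add_mem' := fun hx hy => DI.VP.add hx hy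
  zero_mem' := DI.VP.zero
  neg_mem' := fun hx => DI.VP.neg hx
  mem_or_inv_mem' := fun x => DI.VP.or_vp_inv x

private lemma RV_mem (Q : Ideal ZZ) [hQ : Q.IsPrime] (x : Om) : x ∈ RV_V Q ↔ VP Q x := Iff.rfl

theorem sRV : S_RV := by
  intro Q hQ
  obtain ⟨hQ1, -⟩ := hQ
  have h1 : ∀ x : Om, (RV_V Q).valuation x ≤ 1 ↔ VP Q x := fun x =>
    ((RV_V Q).valuation_le_one_iff x).trans (RV_mem Q x)
  have h2 : ∀ x : Om, (RV_V Q).valuation x < 1 ↔ MP Q x := by
    intro x
    by_cases hx : x = 0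
    · rw [hx, map_zero]
      exact ⟨fun _ => DI.MP.zero, fun _ => zero_lt_one⟩
    · have hv : 0 < (RV_V Q).valuation x := by
        rw [zero_lt_iff]
        exact (Valuation.ne_zero_iff _).2 hx
      have e1 : (RV_V Q).valuation x < 1 ↔ ¬ VP Q x⁻¹ := by
        rw [← h1, map_inv₀, inv_le_one₀ hv, not_le]
      rw [e1, DI.VP.not_iff, inv_inv]
      exact ⟨fun h => h.2, fun h => ⟨inv_ne_zero hx, h⟩⟩
  refine ⟨RV_V Q, h1, h2, fun x => ?_⟩
  constructor
  · intro h
    refine ⟨(h1 x).1 h.le, fun h3 => ?_⟩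
    exact absurd ((h2 x).2 h3) (by rw [h]; exact lt_irrefl _)
  · intro h
    refine le_antisymm ((h1 x).2 h.1) (not_lt.1 fun h3 => h.2 ((h2 x).1 h3))

end Pool.Agent.DK
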