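import Pool.Agent.Lib.DK.R.Spec

/-!
# Theorem DK, module RA: valuation rings of `ℂ` which contain the algebraic numbers
-/

set_option autoImplicit false

noncomputable section

namespace Pool.Agent.DK

theorem sRA : S_RA := by
  intro x hx
  have h : x ∉ (integralClosure ℚ ℂ).toSubring := fun h =>
    hx (IsIntegral.isAlgebraic (show IsIntegral ℚ x from h))
  obtain ⟨V, hV, hxV⟩ := Subring.exists_le_valuationSubring_of_isIntegrallyClosedIn h
  exact ⟨V, fun y hy => hV (show y ∈ integralClosure ℚ ℂ from hy.isIntegral), hxV⟩

end Pool.Agent.DK
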